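import Mathlib

/-!
# MP_1bd878_lc : smoothed analysis of the square-root sum problem (library H14SR, owner helper14)

Interface file: only definitions.  See `PROOF.md` in this folder.
-/

namespace Pool.Agent.H14SR

open Finset

/-- The sign `+1` (true) or `-1` (false). -/
noncomputable def sg (b : Bool) : ℝ := if b then 1 else -1

/-- Signed sum of square roots over a finite index type. -/
noncomputable def ssum {ι : Type} [Fintype ι] (ε : ι → Bool) (x : ι → ℕ) : ℝ :=
  ∑ i, sg (ε i) * Real.sqrt (x i)

/-- `x` is generic on `I`: positive entries with pairwise non-square products. -/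
def Gen {ι : Type} (I : Finset ι) (x : ι → ℕ) : Prop :=
  (∀ i ∈ I, 0 < x i) ∧ ∀ i ∈ I, ∀ j ∈ I, i ≠ j → ¬ IsSquare (x i * x j)

/-- The scale `(1/2) (2 m √A)^(-(4^m))`. -/
noncomputable def delta (m A : ℕ) : ℝ := 1 / (2 * (2 * (m : ℝ) * Real.sqrt A) ^ (4 ^ m))

/-- `H`-box perturbation of `a` by `r`. -/
def shift {ι : Type} {H : ℕ} (a : ι → ℕ) (r : ι → Fin H) : ι → ℕ := fun i => a i + r i

/-! ## The procedure -/

/-- `L`-bit truncated sum: the sum of `⌊2^L √(a i)⌋`. -/
def trunc (L : ℕ) {k : ℕ} (a : Fin k → ℕ) : ℕ := ∑ i, Nat.sqrt (4 ^ L * a i)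

/-- The rational part of `√c (√(a 0) + √(a 1) + ...)`. -/
def part (c : ℕ) {k : ℕ} (a : Fin k → ℕ) : ℕ :=
  ∑ i, if IsSquare (c * a i) then Nat.sqrt (c * a i) else 0

/-- Test for equality of the two sums. -/
def EqTest {k l : ℕ} (a : Fin k → ℕ) (b : Fin l → ℕ) : Prop :=
  (∀ i, part (a i) a = part (a i) b) ∧ ∀ j, part (b j) a = part (b j) b

instance {k l : ℕ} (a : Fin k → ℕ) (b : Fin l → ℕ) : Decidable (EqTest a b) := by
  unfold EqTest; infer_instance

/-- The answer of the procedure with `L` bits: `some true` for yes, `some false` for no, `none` if `L`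
bits do not suffice. -/
def answer (L : ℕ) {k l : ℕ} (a : Fin k → ℕ) (b : Fin l → ℕ) : Option Bool :=
  if EqTest a b then some true
  else if trunc L a + k ≤ trunc L b then some true
  else if trunc L b + l ≤ trunc L a then some false
  else none

/-- The least number of bits with which the procedure answers. -/
noncomputable def prec {k l : ℕ} (a : Fin k → ℕ) (b : Fin l → ℕ) : ℕ :=
  sInf {L | answer L a b ≠ none}

/-- Index type of an instance, its signs and its entries. -/
def sgn (k l : ℕ) : Fin k ⊕ Fin l → Bool := Sum.elim (fun _ => true) (fun _ => false)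

end Pool.Agent.H14SR
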