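import Mathlib
import Pool.Agent.Lib.H14SR.Defs

/-! # H14SR chunk Rat : the rational part of a vanishing sum of square roots vanishes -/

namespace Pool.Agent.H14SR

open Finset

open Polynomial in
private theorem Rat_trace_of_not_square {K : Type} [Field K] [Algebra ℚ K]
    [FiniteDimensional ℚ K] (x : K) (n : ℕ) (hx : x ^ 2 = (n : K)) (hn : ¬ IsSquare n) :
    Algebra.trace ℚ K x = 0 := by
  have hirr : Irreducible (X ^ 2 - C (n : ℚ) : ℚ[X]) := by
    apply X_pow_sub_C_irreducible_of_prime Nat.prime_two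
    intro b hb
    apply hn
    rw [← Rat.isSquare_natCast_iff]
    exact ⟨b, by rw [← hb]; ring⟩
  have hmon : (X ^ 2 - C (n : ℚ) : ℚ[X]).Monic := monic_X_pow_sub_C _ two_ne_zero
  have hroot : aeval x (X ^ 2 - C (n : ℚ) : ℚ[X]) = 0 := by
    rw [map_sub, map_pow, aeval_X, aeval_C, hx, map_natCast, sub_self]
  have hmin : X ^ 2 - C (n : ℚ) = minpoly ℚ x :=
    minpoly.eq_of_irreducible_of_monic hirr hroot hmon
  rw [trace_eq_finrank_mul_minpoly_nextCoeff, ← hmin]
  have hdeg : (X ^ 2 - C (n : ℚ) : ℚ[X]).natDegree = 2 := natDegree_X_pow_sub_C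
  have hnext : (X ^ 2 - C (n : ℚ) : ℚ[X]).nextCoeff = 0 := by
    rw [nextCoeff_of_natDegree_pos (by rw [hdeg]; norm_num), hdeg, coeff_sub, coeff_X_pow,
      coeff_C]
    norm_num
  rw [hnext, neg_zero, mul_zero]

private theorem Rat_trace {K : Type} [Field K] [Algebra ℚ K] [FiniteDimensional ℚ K] (x : K)
    (n : ℕ) (hx : x ^ 2 = (n : K)) (hs : IsSquare n → x = (Nat.sqrt n : K)) :
    Algebra.trace ℚ K x
      = Module.finrank ℚ K * (if IsSquare n then (Nat.sqrt n : ℚ) else 0) := by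
  by_cases h : IsSquare n
  · rw [if_pos h, hs h]
    have h1 : ((Nat.sqrt n : ℕ) : K) = algebraMap ℚ K (Nat.sqrt n : ℚ) := by
      rw [map_natCast]
    rw [h1, Algebra.trace_algebraMap, nsmul_eq_mul]
  · rw [if_neg h, mul_zero]
    exact Rat_trace_of_not_square x n hx h

/-- Proof: in `K = IntermediateField.adjoin ℚ (Set.range fun i => √(d i)) ≤ ℝ`, which is finite
dimensional over `ℚ`, take the trace of `∑ c i * s i = 0` (`s i` the element `√(d i)` of `K`).
If `d i` is a square then `s i = Nat.sqrt (d i)` has trace `[K:ℚ] * Nat.sqrt (d i)`.  If not then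
`minpoly ℚ (s i) = X ^ 2 - C (d i)` (irreducible by `X_pow_sub_C_irreducible_of_prime`), so the trace is zero
(`trace_eq_finrank_mul_minpoly_nextCoeff`).  Divide by `[K:ℚ] ≠ 0`. -/
theorem rational_part {ι : Type} [Fintype ι] (c : ι → ℤ) (d : ι → ℕ)
    (h : ∑ i, (c i : ℝ) * Real.sqrt (d i) = 0) :
    ∑ i, (if IsSquare (d i) then c i * (Nat.sqrt (d i) : ℤ) else 0) = 0 := by
  set S : Set ℝ := Set.range fun i => Real.sqrt (d i) with hS
  have hfin : Finite S := Set.finite_range _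
  have hint : ∀ x ∈ S, IsIntegral ℚ x := by
    rintro x ⟨i, rfl⟩
    refine ⟨Polynomial.X ^ 2 - Polynomial.C (d i : ℚ), Polynomial.monic_X_pow_sub_C _ two_ne_zero, ?_⟩
    rw [Polynomial.eval₂_sub, Polynomial.eval₂_pow, Polynomial.eval₂_X, Polynomial.eval₂_C,
      Real.sq_sqrt (Nat.cast_nonneg _), map_natCast, sub_self]
  have : FiniteDimensional ℚ (IntermediateField.adjoin ℚ S) :=
    IntermediateField.finiteDimensional_adjoin hint
  set K := IntermediateField.adjoin ℚ S with hK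
  have hmem : ∀ i, Real.sqrt (d i) ∈ K := fun i =>
    IntermediateField.subset_adjoin ℚ S ⟨i, rfl⟩
  set s : ι → K := fun i => ⟨Real.sqrt (d i), hmem i⟩ with hs
  have hs2 : ∀ i, s i ^ 2 = ((d i : ℕ) : K) := by
    intro i
    apply Subtype.ext
    have h1 : ((s i ^ 2 : K) : ℝ) = Real.sqrt (d i) ^ 2 := rfl
    rw [h1, Real.sq_sqrt (Nat.cast_nonneg _)]
    rfl
  have hsq : ∀ i, IsSquare (d i) → s i = ((Nat.sqrt (d i) : ℕ) : K) := by
    intro i hi
    obtain ⟨r, hr⟩ := hi
    apply Subtype.ext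
    have h1 : ((s i : K) : ℝ) = Real.sqrt (d i) := rfl
    have h2 : (((Nat.sqrt (d i) : ℕ) : K) : ℝ) = ((Nat.sqrt (d i) : ℕ) : ℝ) := rfl
    rw [h1, h2, hr, Nat.sqrt_eq, Nat.cast_mul, Real.sqrt_mul_self (Nat.cast_nonneg _)]
  have hsum : ∑ i, ((c i : ℤ) : ℚ) • s i = 0 := by
    apply Subtype.ext
    have h1 : ((∑ i, ((c i : ℤ) : ℚ) • s i : K) : ℝ) = ∑ i, (c i : ℝ) * Real.sqrt (d i) := by
      rw [IntermediateField.coe_sum]
      refine Finset.sum_congr rfl fun i _ => ?_
      rw [IntermediateField.coe_smul, Algebra.smul_def]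
      rfl
    rw [h1, h]
    rfl
  have htr := congrArg (Algebra.trace ℚ K) hsum
  rw [map_sum, map_zero] at htr
  have h2 : ∀ i ∈ Finset.univ, Algebra.trace ℚ K (((c i : ℤ) : ℚ) • s i)
      = Module.finrank ℚ K *
        ((if IsSquare (d i) then c i * (Nat.sqrt (d i) : ℤ) else 0 : ℤ) : ℚ) := by
    intro i _
    rw [map_smul, Rat_trace (s i) (d i) (hs2 i) (hsq i), smul_eq_mul]
    split_ifs
    · push_cast
      ring
    · push_cast
      ring
  rw [Finset.sum_congr rfl h2, ← Finset.mul_sum, ← Int.cast_sum] at htr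
  rcases mul_eq_zero.1 htr with h3 | h3
  · exfalso
    have h4 : Module.finrank ℚ K = 0 := by exact_mod_cast h3
    exact (Module.finrank_pos (R := ℚ) (M := K)).ne' h4
  · exact_mod_cast h3

end Pool.Agent.H14SR
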