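import Mathlib
import Pool.Agent.Lib.H14SR.Rat

/-! # H14SR chunk EqT : the equality test is correct -/

namespace Pool.Agent.H14SR

open Finset

private theorem EqT_sq_trans {a b c : ℕ} (hb : 0 < b) (h1 : IsSquare (a * b))
    (h2 : IsSquare (b * c)) : IsSquare (a * c) := by
  obtain ⟨u, hu⟩ := h1
  obtain ⟨v, hv⟩ := h2
  have h : (a * c) * b ^ 2 = (u * v) ^ 2 := by
    have h0 : (a * b) * (b * c) = (u * u) * (v * v) := by rw [hu, hv]
    calc (a * c) * b ^ 2 = (a * b) * (b * c) := by ring
      _ = (u * u) * (v * v) := h0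
      _ = (u * v) ^ 2 := by ring
  have hd : b ^ 2 ∣ (u * v) ^ 2 := ⟨a * c, by rw [← h]; ring⟩
  have hd' : b ∣ u * v := (Nat.pow_dvd_pow_iff two_ne_zero).1 hd
  obtain ⟨t, ht⟩ := hd'
  refine ⟨t, ?_⟩
  have hb2 : 0 < b ^ 2 := by positivity
  apply Nat.eq_of_mul_eq_mul_right hb2
  rw [h, ht]
  ring

private theorem EqT_nat_sqrt {n : ℕ} (h : IsSquare n) : ((Nat.sqrt n : ℕ) : ℝ) = Real.sqrt n := by
  obtain ⟨r, hr⟩ := h
  rw [hr, Nat.sqrt_eq]
  push_cast
  rw [Real.sqrt_mul_self (Nat.cast_nonneg r)]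

/-- Forward direction, from the vanishing of the sum. -/
private theorem EqT_fwd {ι : Type} [Fintype ι] (x : ι → ℕ) (s : ι → ℤ)
    (h : ∑ e, (s e : ℝ) * Real.sqrt (x e) = 0) (i : ι) :
    ∑ e, (if IsSquare (x i * x e) then s e * (Nat.sqrt (x i * x e) : ℤ) else 0) = 0 := by
  apply rational_part s (fun e => x i * x e)
  have h1 : ∀ e, (s e : ℝ) * Real.sqrt ((x i * x e : ℕ) : ℝ)
      = Real.sqrt (x i) * ((s e : ℝ) * Real.sqrt (x e)) := by
    intro e
    push_cast
    rw [Real.sqrt_mul (Nat.cast_nonneg (x i))]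
    ring
  rw [sum_congr rfl (fun e _ => h1 e), ← mul_sum, h, mul_zero]

/-- Backward direction. -/
private theorem EqT_bwd {ι : Type} [Fintype ι] (x : ι → ℕ) (s : ι → ℤ)
    (h : ∀ i, ∑ e, (if IsSquare (x i * x e) then s e * (Nat.sqrt (x i * x e) : ℤ) else 0) = 0) :
    ∑ e, (s e : ℝ) * Real.sqrt (x e) = 0 := by
  classical
  -- the relation sums
  have h1 : ∀ i, 0 < x i →
      ∑ e, (if IsSquare (x i * x e) then (s e : ℝ) * Real.sqrt (x e) else 0) = 0 := by
    intro i hi
    have h2 : ((∑ e, (if IsSquare (x i * x e) then s e * (Nat.sqrt (x i * x e) : ℤ) else 0) : ℤ) : ℝ)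
        = 0 := by rw [h i]; simp
    have h3 : ((∑ e, (if IsSquare (x i * x e) then s e * (Nat.sqrt (x i * x e) : ℤ) else 0) : ℤ) : ℝ)
        = Real.sqrt (x i) *
          ∑ e, (if IsSquare (x i * x e) then (s e : ℝ) * Real.sqrt (x e) else 0) := by
      rw [mul_sum, Int.cast_sum]
      apply sum_congr rfl
      intro e _
      by_cases hs : IsSquare (x i * x e)
      · rw [if_pos hs, if_pos hs, Int.cast_mul, Int.cast_natCast, EqT_nat_sqrt hs]
        push_cast
        rw [Real.sqrt_mul (Nat.cast_nonneg (x i))]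
        ring
      · rw [if_neg hs, if_neg hs]; simp
    rw [h3] at h2
    rcases mul_eq_zero.1 h2 with h4 | h4
    · exfalso
      have : 0 < Real.sqrt (x i) := Real.sqrt_pos.2 (by exact_mod_cast hi)
      linarith
    · exact h4
  -- class sizes
  let N : ι → ℝ := fun e => ∑ i, (if 0 < x i ∧ IsSquare (x i * x e) then (1 : ℝ) else 0)
  have hNpos : ∀ e, 0 < x e → 0 < N e := by
    intro e he
    have h0 : (1 : ℝ) ≤ N e := by
      have h1 : (if 0 < x e ∧ IsSquare (x e * x e) then (1 : ℝ) else 0) = 1 :=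
        if_pos ⟨he, ⟨x e, rfl⟩⟩
      calc (1 : ℝ) = (if 0 < x e ∧ IsSquare (x e * x e) then (1 : ℝ) else 0) := h1.symm
        _ ≤ N e := by
          apply single_le_sum (f := fun i => (if 0 < x i ∧ IsSquare (x i * x e) then (1 : ℝ) else 0))
          · intro i _
            by_cases hc : 0 < x i ∧ IsSquare (x i * x e)
            · simp only [if_pos hc]; exact zero_le_one
            · simp only [if_neg hc]; exact le_refl _
          · exact mem_univ e
    linarith
  have hNeq : ∀ i e, 0 < x i → 0 < x e → IsSquare (x i * x e) → N i = N e := by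
    intro i e hi he hs
    apply sum_congr rfl
    intro j _
    have hs' : IsSquare (x e * x i) := by rw [mul_comm]; exact hs
    have hiff : (0 < x j ∧ IsSquare (x j * x i)) ↔ (0 < x j ∧ IsSquare (x j * x e)) := by
      constructor
      · rintro ⟨h1, h2⟩
        exact ⟨h1, EqT_sq_trans hi h2 hs⟩
      · rintro ⟨h1, h2⟩
        exact ⟨h1, EqT_sq_trans he h2 hs'⟩
    by_cases hc : 0 < x j ∧ IsSquare (x j * x e)
    · rw [if_pos hc, if_pos (hiff.2 hc)]
    · rw [if_neg hc, if_neg (fun h => hc (hiff.1 h))]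
  -- double counting
  have hA : ∀ e, (s e : ℝ) * Real.sqrt (x e)
      = ∑ i, (if 0 < x i ∧ IsSquare (x i * x e) then (s e : ℝ) * Real.sqrt (x e) / N i else 0) := by
    intro e
    rcases Nat.eq_zero_or_pos (x e) with he | he
    · rw [he]; simp
    · have hN := hNpos e he
      have h2 : ∀ i, (if 0 < x i ∧ IsSquare (x i * x e) then (s e : ℝ) * Real.sqrt (x e) / N i else 0)
          = (s e : ℝ) * Real.sqrt (x e) / N e *
            (if 0 < x i ∧ IsSquare (x i * x e) then (1 : ℝ) else 0) := by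
        intro i
        by_cases hc : 0 < x i ∧ IsSquare (x i * x e)
        · rw [if_pos hc, if_pos hc, hNeq i e hc.1 he hc.2, mul_one]
        · rw [if_neg hc, if_neg hc, mul_zero]
      rw [sum_congr rfl (fun i _ => h2 i), ← mul_sum]
      change (s e : ℝ) * Real.sqrt (x e) = (s e : ℝ) * Real.sqrt (x e) / N e * N e
      field_simp
  rw [sum_congr rfl (fun e _ => hA e), sum_comm]
  apply sum_eq_zero
  intro i _
  by_cases hi : 0 < x i
  · have h2 : ∀ e, (if 0 < x i ∧ IsSquare (x i * x e) then (s e : ℝ) * Real.sqrt (x e) / N i else 0)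
        = (1 / N i) * (if IsSquare (x i * x e) then (s e : ℝ) * Real.sqrt (x e) else 0) := by
      intro e
      by_cases hc : IsSquare (x i * x e)
      · rw [if_pos ⟨hi, hc⟩, if_pos hc]; ring
      · rw [if_neg (fun h => hc h.2), if_neg hc, mul_zero]
    rw [sum_congr rfl (fun e _ => h2 e), ← mul_sum, h1 i hi, mul_zero]
  · apply sum_eq_zero
    intro e _
    rw [if_neg (fun h => hi h.1)]

/-- Proof.  (←) Multiply `∑ √(a i) - ∑ √(b j) = 0` by `√c` and apply `rational_part` with index type
`Fin k ⊕ Fin l`.  (→) Let `x = Sum.elim a b` on `ι = Fin k ⊕ Fin l` with signs `s = ±1`.  For a positive entry `x i` the test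
says `∑ e, [IsSquare (x i * x e)] s e √(x i * x e) = 0` (for a square `c * y`, `Nat.sqrt (c * y) = √c √y`), divide by
`√(x i)`: `∑ e, [IsSquare (x i * x e)] s e √(x e) = 0`.  On the indices with positive entries
`IsSquare (x i * x e)` is an equivalence relation.  Let `N e` be the number of `i` with `0 < x i` and
`IsSquare (x i * x e)`; `N e ≥ 1` for `x e > 0` and `N i = N e` for related `i, e`.  Then
`0 = ∑ i (positive), (1 / N i) ∑ e, [related] s e √(x e) = ∑ e (positive), s e √(x e) ∑ i, [related] 1 / N e = ∑ e, s e √(x e)`. -/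
theorem eqTest_iff {k l : ℕ} (a : Fin k → ℕ) (b : Fin l → ℕ) :
    EqTest a b ↔ ∑ i, Real.sqrt (a i) = ∑ j, Real.sqrt (b j) := by
  let x : Fin k ⊕ Fin l → ℕ := Sum.elim a b
  let s : Fin k ⊕ Fin l → ℤ := Sum.elim (fun _ => 1) (fun _ => -1)
  have hpart : ∀ c : ℕ, ∑ e, (if IsSquare (c * x e) then s e * (Nat.sqrt (c * x e) : ℤ) else 0)
      = (part c a : ℤ) - part c b := by
    intro c
    rw [Fintype.sum_sum_type]
    have h1 : ∑ i, (if IsSquare (c * x (Sum.inl i)) then
        s (Sum.inl i) * (Nat.sqrt (c * x (Sum.inl i)) : ℤ) else 0) = (part c a : ℤ) := by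
      unfold part
      rw [Nat.cast_sum]
      apply sum_congr rfl
      intro i _
      change (if IsSquare (c * a i) then (1 : ℤ) * (Nat.sqrt (c * a i) : ℤ) else 0) = _
      by_cases h : IsSquare (c * a i)
      · rw [if_pos h, if_pos h, one_mul]
      · rw [if_neg h, if_neg h]; rfl
    have h2 : ∑ j, (if IsSquare (c * x (Sum.inr j)) then
        s (Sum.inr j) * (Nat.sqrt (c * x (Sum.inr j)) : ℤ) else 0) = - (part c b : ℤ) := by
      unfold part
      rw [Nat.cast_sum, ← sum_neg_distrib]
      apply sum_congr rfl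
      intro i _
      change (if IsSquare (c * b i) then (-1 : ℤ) * (Nat.sqrt (c * b i) : ℤ) else 0) = _
      by_cases h : IsSquare (c * b i)
      · rw [if_pos h, if_pos h]; ring
      · rw [if_neg h, if_neg h]; simp
    rw [h1, h2]
    ring
  have hsum : ∑ e, (s e : ℝ) * Real.sqrt (x e) = ∑ i, Real.sqrt (a i) - ∑ j, Real.sqrt (b j) := by
    rw [Fintype.sum_sum_type]
    have h1 : ∑ i, (s (Sum.inl i) : ℝ) * Real.sqrt (x (Sum.inl i)) = ∑ i, Real.sqrt (a i) := by
      apply sum_congr rfl
      intro i _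
      change ((1 : ℤ) : ℝ) * Real.sqrt (a i) = _
      simp
    have h2 : ∑ j, (s (Sum.inr j) : ℝ) * Real.sqrt (x (Sum.inr j)) = - ∑ j, Real.sqrt (b j) := by
      rw [← sum_neg_distrib]
      apply sum_congr rfl
      intro j _
      change ((-1 : ℤ) : ℝ) * Real.sqrt (b j) = _
      simp
    rw [h1, h2]
    ring
  have htest : EqTest a b ↔ ∀ i, ∑ e, (if IsSquare (x i * x e) then
      s e * (Nat.sqrt (x i * x e) : ℤ) else 0) = 0 := by
    unfold EqTest
    constructor
    · rintro ⟨h1, h2⟩ i
      rw [hpart]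
      rcases i with i | j
      · change (part (a i) a : ℤ) - part (a i) b = 0
        rw [h1 i]; ring
      · change (part (b j) a : ℤ) - part (b j) b = 0
        rw [h2 j]; ring
    · intro h
      constructor
      · intro i
        have h3 := h (Sum.inl i)
        rw [hpart] at h3
        change (part (a i) a : ℤ) - part (a i) b = 0 at h3
        omega
      · intro j
        have h3 := h (Sum.inr j)
        rw [hpart] at h3
        change (part (b j) a : ℤ) - part (b j) b = 0 at h3
        omega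
  rw [htest]
  constructor
  · intro h
    have h4 := EqT_bwd x s h
    rw [hsum] at h4
    linarith
  · intro h
    have h4 : ∑ e, (s e : ℝ) * Real.sqrt (x e) = 0 := by rw [hsum, h]; ring
    exact EqT_fwd x s h4

end Pool.Agent.H14SR
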