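import Mathlib
import Pool.Agent.Lib.H14SR.EqT

/-! # H14SR chunk Ans : the answers are correct, and enough bits give an answer -/

namespace Pool.Agent.H14SR

open Finset

/-- `√(4 ^ L * x) = 2 ^ L * √x`. -/
theorem ans_sqrt (L x : ℕ) :
    Real.sqrt ((4 ^ L * x : ℕ) : ℝ) = 2 ^ L * Real.sqrt (x : ℝ) := by
  have h4 : ((4 ^ L * x : ℕ) : ℝ) = ((2 : ℝ) ^ L) ^ 2 * (x : ℝ) := by
    push_cast
    have : (4 : ℝ) ^ L = ((2 : ℝ) ^ L) ^ 2 := by
      rw [← pow_mul, mul_comm, pow_mul]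
      norm_num
    rw [this]
  rw [h4, Real.sqrt_mul (by positivity), Real.sqrt_sq (by positivity)]

/-- `trunc L a ≤ 2 ^ L * ∑ √(a i) ≤ trunc L a + k`, strict on the right if `0 < k`: each term
`Nat.sqrt (4 ^ L * a i)` is the floor of `2 ^ L * √(a i)`. -/
theorem trunc_le (L : ℕ) {k : ℕ} (a : Fin k → ℕ) :
    (trunc L a : ℝ) ≤ 2 ^ L * ∑ i, Real.sqrt (a i) := by
  unfold trunc
  push_cast
  rw [Finset.mul_sum]
  refine Finset.sum_le_sum fun i _ => ?_
  rw [← ans_sqrt]
  exact Real.nat_sqrt_le_real_sqrt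

theorem le_trunc (L : ℕ) {k : ℕ} (a : Fin k → ℕ) :
    2 ^ L * ∑ i, Real.sqrt (a i) ≤ (trunc L a : ℝ) + k := by
  unfold trunc
  push_cast
  rw [Finset.mul_sum]
  have hk : (k : ℝ) = ∑ _i : Fin k, (1 : ℝ) := by simp
  conv_rhs => rw [hk]
  rw [← Finset.sum_add_distrib]
  refine Finset.sum_le_sum fun i _ => ?_
  rw [← ans_sqrt]
  exact Real.real_sqrt_le_nat_sqrt_succ

/-- Soundness.  The test decides equality; otherwise `trunc L a + k ≤ trunc L b` gives
`∑ √(a i) ≤ ∑ √(b j)` and `trunc L b + l ≤ trunc L a` gives `∑ √(b j) ≤ ∑ √(a i)`, and they are not equal. -/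
theorem answer_sound (L : ℕ) {k l : ℕ} (a : Fin k → ℕ) (b : Fin l → ℕ) (v : Bool)
    (h : answer L a b = some v) :
    v = true ↔ ∑ i, Real.sqrt (a i) ≤ ∑ j, Real.sqrt (b j) := by
  have h2 : (0 : ℝ) < 2 ^ L := by positivity
  unfold answer at h
  split_ifs at h with h1 h3 h4
  · have hv : v = true := by simpa using h.symm
    simp only [hv, true_iff]
    exact ((eqTest_iff a b).1 h1).le
  · have hv : v = true := by simpa using h.symm
    simp only [hv, true_iff]
    have h5 := le_trunc L a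
    have h6 := trunc_le L b
    have h7 : ((trunc L a + k : ℕ) : ℝ) ≤ (trunc L b : ℝ) := by exact_mod_cast h3
    push_cast at h7
    exact le_of_mul_le_mul_left (by linarith) h2
  · have hv : v = false := by simpa using h.symm
    have h5 := le_trunc L b
    have h6 := trunc_le L a
    have h7 : ((trunc L b + l : ℕ) : ℝ) ≤ (trunc L a : ℝ) := by exact_mod_cast h4
    push_cast at h7
    have h8 : ∑ j, Real.sqrt (b j) ≤ ∑ i, Real.sqrt (a i) :=
      le_of_mul_le_mul_left (by linarith) h2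
    have h9 : ∑ i, Real.sqrt (a i) ≠ ∑ j, Real.sqrt (b j) := fun he => h1 ((eqTest_iff a b).2 he)
    simp only [hv, Bool.false_eq_true, false_iff, not_le]
    exact lt_of_le_of_ne h8 (Ne.symm h9)

theorem answer_of_eq (L : ℕ) {k l : ℕ} (a : Fin k → ℕ) (b : Fin l → ℕ)
    (h : ∑ i, Real.sqrt (a i) = ∑ j, Real.sqrt (b j)) : answer L a b = some true := by
  unfold answer
  rw [if_pos ((eqTest_iff a b).2 h)]

/-- If `2 ^ L * |difference| ≥ 2 (k + l)` then `L` bits suffice. -/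
theorem answer_of_gap (L : ℕ) {k l : ℕ} (a : Fin k → ℕ) (b : Fin l → ℕ)
    (h : 2 * ((k : ℝ) + l) ≤ 2 ^ L * |∑ i, Real.sqrt (a i) - ∑ j, Real.sqrt (b j)|) :
    answer L a b ≠ none := by
  have hk : (0 : ℝ) ≤ k := Nat.cast_nonneg k
  have hl : (0 : ℝ) ≤ l := Nat.cast_nonneg l
  unfold answer
  split_ifs with h1 h3 h4
  · simp
  · simp
  · simp
  · exfalso
    have a1 := trunc_le L a
    have a2 := le_trunc L a
    have b1 := trunc_le L b
    have b2 := le_trunc L b
    have h3' : (trunc L b : ℝ) < (trunc L a : ℝ) + k := by exact_mod_cast not_le.1 h3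
    have h4' : (trunc L a : ℝ) < (trunc L b : ℝ) + l := by exact_mod_cast not_le.1 h4
    rcases le_total (∑ i, Real.sqrt (a i)) (∑ j, Real.sqrt (b j)) with hab | hab
    · rw [abs_of_nonpos (by linarith)] at h
      have : 2 ^ L * -(∑ i, Real.sqrt (a i) - ∑ j, Real.sqrt (b j))
          = 2 ^ L * ∑ j, Real.sqrt (b j) - 2 ^ L * ∑ i, Real.sqrt (a i) := by ring
      rw [this] at h
      linarith
    · rw [abs_of_nonneg (by linarith)] at h
      rw [mul_sub] at h
      linarith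

/-- For all large `L` the procedure answers (equal sums: always; otherwise `answer_of_gap`). -/
theorem answer_eventually {k l : ℕ} (a : Fin k → ℕ) (b : Fin l → ℕ) :
    ∃ L₀, ∀ L ≥ L₀, answer L a b ≠ none := by
  by_cases he : ∑ i, Real.sqrt (a i) = ∑ j, Real.sqrt (b j)
  · exact ⟨0, fun L _ => by rw [answer_of_eq L a b he]; simp⟩
  · have hd : 0 < |∑ i, Real.sqrt (a i) - ∑ j, Real.sqrt (b j)| :=
      abs_pos.2 (sub_ne_zero.2 he)
    obtain ⟨N, hN⟩ := pow_unbounded_of_one_lt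
      (2 * ((k : ℝ) + l) / |∑ i, Real.sqrt (a i) - ∑ j, Real.sqrt (b j)|) (one_lt_two (α := ℝ))
    refine ⟨N, fun L hL => answer_of_gap L a b ?_⟩
    have h1 : (2 : ℝ) ^ N ≤ 2 ^ L := pow_le_pow_right₀ one_le_two hL
    have h2 := hN.le.trans h1
    rwa [div_le_iff₀ hd] at h2

/-- Bound for the least number of bits: `L = ⌈y⌉₊` in `answer_of_gap`, `Nat.sInf_le`. -/
theorem prec_le {k l : ℕ} (a : Fin k → ℕ) (b : Fin l → ℕ) (y : ℝ) (hy : 0 ≤ y)
    (h : ∑ i, Real.sqrt (a i) = ∑ j, Real.sqrt (b j) ∨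
      2 * ((k : ℝ) + l) ≤ (2 : ℝ) ^ y * |∑ i, Real.sqrt (a i) - ∑ j, Real.sqrt (b j)|) :
    (prec a b : ℝ) ≤ y + 1 := by
  rcases h with he | hg
  · have h0 : prec a b ≤ 0 := by
      unfold prec
      exact Nat.sInf_le (by
        simp only [Set.mem_ofPred_eq]
        rw [answer_of_eq 0 a b he]; simp)
    have : (prec a b : ℝ) ≤ 0 := by exact_mod_cast h0
    linarith
  · have h1 : prec a b ≤ ⌈y⌉₊ := by
      unfold prec
      refine Nat.sInf_le ?_
      simp only [Set.mem_ofPred_eq]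
      refine answer_of_gap _ a b (hg.trans ?_)
      refine mul_le_mul_of_nonneg_right ?_ (abs_nonneg _)
      rw [← Real.rpow_natCast]
      exact Real.rpow_le_rpow_of_exponent_le one_le_two (Nat.le_ceil y)
    have h2 : (prec a b : ℝ) ≤ (⌈y⌉₊ : ℝ) := by exact_mod_cast h1
    have h3 := Nat.ceil_lt_add_one hy
    linarith

end Pool.Agent.H14SR
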