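import Mathlib
import Pool.Agent.Lib.H14SR.Defs

/-! # H14SR chunk Fib : counting functions by fibers of a restriction -/

namespace Pool.Agent.H14SR

open Finset

/-- Proof: map `f ∈ P` to its restriction to the complement of `U`; there are
`card α ^ (card ι - card U)` restrictions and each fiber has at most `c` elements
(`Finset.card_le_mul_card_image` or `Finset.card_eq_sum_card_fiberwise`). -/
theorem card_le_of_fiber {ι α : Type} [Fintype ι] [DecidableEq ι] [Fintype α] [DecidableEq α]
    (P : Finset (ι → α)) (U : Finset ι) (c : ℕ)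
    (h : ∀ f ∈ P, (P.filter (fun g => ∀ i, i ∉ U → g i = f i)).card ≤ c) :
    P.card ≤ Fintype.card α ^ (Fintype.card ι - U.card) * c := by
  classical
  set ρ : (ι → α) → ({i : ι // i ∉ U} → α) := fun f i => f i.1 with hρ
  have h1 : P.card ≤ c * (P.image ρ).card := by
    refine Finset.card_le_mul_card_image P c ?_
    intro a ha
    obtain ⟨f, hf, rfl⟩ := Finset.mem_image.mp ha
    refine le_trans (Finset.card_le_card ?_) (h f hf)
    intro g hg
    rw [Finset.mem_filter] at hg ⊢
    refine ⟨hg.1, fun i hi => ?_⟩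
    exact congrFun hg.2 ⟨i, hi⟩
  have h2 : (P.image ρ).card ≤ Fintype.card α ^ (Fintype.card ι - U.card) := by
    refine le_trans (Finset.card_le_univ _) ?_
    have h3 : Fintype.card {i : ι // i ∉ U} = Fintype.card ι - U.card := by
      rw [Fintype.card_subtype_compl, Fintype.card_coe]
    rw [Fintype.card_fun, h3]
  calc P.card ≤ c * (P.image ρ).card := h1
    _ ≤ c * Fintype.card α ^ (Fintype.card ι - U.card) := Nat.mul_le_mul_left _ h2
    _ = _ := Nat.mul_comm _ _

/-- If moreover each coordinate `i ∈ U` of the elements of a fiber lies in a set of at most `g` elements which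
depends only on the fiber, then `P.card ≤ card α ^ (card ι - card U) * g ^ card U`.  Proof: the fiber of `f`
injects into `∏ i ∈ U, G f i` (`Fintype.piFinset` or `Finset.pi`), then `card_le_of_fiber`. -/
theorem card_le_of_choices {ι α : Type} [Fintype ι] [DecidableEq ι] [Fintype α] [DecidableEq α]
    (P : Finset (ι → α)) (U : Finset ι) (g : ℕ) (G : (ι → α) → ι → Finset α)
    (hG : ∀ f ∈ P, ∀ i ∈ U, (G f i).card ≤ g)
    (h : ∀ f ∈ P, ∀ f' ∈ P, (∀ i, i ∉ U → f' i = f i) → ∀ i ∈ U, f' i ∈ G f i) :
    P.card ≤ Fintype.card α ^ (Fintype.card ι - U.card) * g ^ U.card := by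
  classical
  refine card_le_of_fiber P U _ ?_
  intro f hf
  have h1 : (P.filter (fun g => ∀ i, i ∉ U → g i = f i)).card ≤ (U.pi (G f)).card := by
    refine Finset.card_le_card_of_injOn (fun f' i _ => f' i) ?_ ?_
    · intro f' hf'
      have hf2 := Finset.mem_filter.mp (Finset.mem_coe.mp hf')
      refine Finset.mem_coe.mpr (Finset.mem_pi.mpr ?_)
      intro i hi
      exact h f hf f' hf2.1 hf2.2 i hi
    · intro f1 hf1 f2 hf2 he
      have hf1' := Finset.mem_filter.mp (Finset.mem_coe.mp hf1)
      have hf2' := Finset.mem_filter.mp (Finset.mem_coe.mp hf2)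
      funext i
      by_cases hi : i ∈ U
      · exact congrFun (congrFun he i) hi
      · rw [hf1'.2 i hi, hf2'.2 i hi]
  refine le_trans h1 ?_
  rw [Finset.card_pi]
  calc ∏ i ∈ U, (G f i).card ≤ ∏ _i ∈ U, g := Finset.prod_le_prod' (fun i hi => hG f hf i hi)
    _ = g ^ U.card := by rw [Finset.prod_const]

end Pool.Agent.H14SR
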