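import Mathlib
import Pool.Agent.Lib.H14SR.Defs

/-! # H14SR chunk Sep : root separation -/

namespace Pool.Agent.H14SR

open Finset

private abbrev sepK : Type := AlgebraicClosure ℚ

private lemma sep_alg : Algebra.IsAlgebraic ℚ sepK := by
  have h0 := AlgebraicClosure.isAlgebraic ℚ
  have h : (DivisionRing.toRatAlgebra : Algebra ℚ (AlgebraicClosure ℚ)) = AlgebraicClosure.instAlgebra ℚ :=
    Subsingleton.elim _ _
  show @Algebra.IsAlgebraic ℚ (AlgebraicClosure ℚ) _ _ (DivisionRing.toRatAlgebra)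
  rw [h]; exact h0

attribute [local instance] sep_alg

private lemma sep_normal : Normal ℚ sepK := by
  have h0 : IsAlgClosure ℚ sepK := ⟨inferInstance, sep_alg⟩
  exact IsAlgClosure.normal ℚ sepK

attribute [local instance] sep_normal

/-- The sign in the algebraic closure. -/
private noncomputable def sep_sg (b : Bool) : sepK := if b then 1 else -1

private noncomputable def sep_phi : sepK →ₐ[ℚ] ℂ := IsAlgClosed.lift

private lemma sep_phi_sg (b : Bool) : sep_phi (sep_sg b) = ((sg b : ℝ) : ℂ) := by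
  cases b <;> simp [sep_sg, sg]

private lemma sep_sg_mul (a b : Bool) : sep_sg a * sep_sg b = sep_sg (a == b) := by
  cases a <;> cases b <;> simp [sep_sg]

/-- A square root with prescribed image. -/
private lemma sep_root (n : ℕ) : ∃ s : sepK, s ^ 2 = (n : sepK) ∧ sep_phi s = ((Real.sqrt n : ℝ) : ℂ) := by
  obtain ⟨z, hz⟩ := IsAlgClosed.exists_pow_nat_eq (n : sepK) (n := 2) (by norm_num)
  have h1 : (sep_phi z) ^ 2 = ((Real.sqrt n : ℝ) : ℂ) ^ 2 := by
    rw [← map_pow, hz, map_natCast, ← Complex.ofReal_pow, Real.sq_sqrt (Nat.cast_nonneg n)]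
    simp
  rcases sq_eq_sq_iff_eq_or_eq_neg.mp h1 with h2 | h2
  · exact ⟨z, hz, h2⟩
  · refine ⟨-z, by rw [neg_sq]; exact hz, ?_⟩
    rw [map_neg, h2, neg_neg]

private lemma sep_norm_sg (b : Bool) : ‖sep_phi (sep_sg b)‖ = 1 := by
  cases b <;> simp [sep_sg]

private lemma sep_exists_sg {a s : sepK} (h : a ^ 2 = s ^ 2) : ∃ b : Bool, a = sep_sg b * s := by
  rcases sq_eq_sq_iff_eq_or_eq_neg.mp h with h | h
  · exact ⟨true, by simp [sep_sg, h]⟩
  · exact ⟨false, by simp [sep_sg, h]⟩

/-- The norm bound of a nonzero algebraic integer all of whose conjugates lie in a finite set. -/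
private lemma sep_conj (α : sepK) (hα : IsIntegral ℤ α) (h0 : α ≠ 0) (R : Finset sepK) (B : ℝ) (hB : 1 ≤ B)
    (hR : ∀ β : sepK, IsConjRoot ℚ α β → β ∈ R) (hn : ∀ β ∈ R, ‖sep_phi β‖ ≤ B) :
    1 ≤ ‖sep_phi α‖ * B ^ (R.card - 1) := by
  classical
  have hαQ : IsIntegral ℚ α := hα.tower_top
  have hp0 : minpoly ℚ α ≠ 0 := minpoly.ne_zero hαQ
  have hspl : ((minpoly ℚ α).map (algebraMap ℚ sepK)).Splits := IsAlgClosed.splits _
  have hnd : ((minpoly ℚ α).aroots sepK).Nodup :=
    (Polynomial.nodup_aroots_iff_of_splits hp0 hspl).2 (minpoly.irreducible hαQ).separable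
  have hmon : ((minpoly ℚ α).map (algebraMap ℚ sepK)).Monic := (minpoly.monic hαQ).map _
  have hprod := hspl.coeff_zero_eq_prod_roots_of_monic hmon
  -- the constant coefficient is a nonzero integer
  have hint : minpoly ℚ α = (minpoly ℤ α).map (algebraMap ℤ ℚ) :=
    minpoly.isIntegrallyClosed_eq_field_fractions' ℚ hα
  have hc : (minpoly ℚ α).coeff 0 = (((minpoly ℤ α).coeff 0 : ℤ) : ℚ) := by
    rw [hint, Polynomial.coeff_map]; rfl
  have hc0 : (minpoly ℤ α).coeff 0 ≠ 0 := by
    intro h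
    have : (minpoly ℚ α).coeff 0 = 0 := by rw [hc, h]; simp
    exact h0 ((minpoly.coeff_zero_eq_zero hαQ).1 this)
  set S : Finset sepK := ((minpoly ℚ α).aroots sepK).toFinset with hS
  have hprodS : ((minpoly ℚ α).aroots sepK).prod = ∏ β ∈ S, β := by
    rw [hS, Finset.prod_multiset_count, Finset.prod_congr rfl]
    intro β hβ
    rw [Multiset.count_eq_one_of_mem hnd (Multiset.mem_toFinset.1 hβ), pow_one]
  have hnorm : (1 : ℝ) ≤ ‖sep_phi (∏ β ∈ S, β)‖ := by
    have h1 : (((minpoly ℤ α).coeff 0 : ℤ) : sepK)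
        = (-1) ^ ((minpoly ℚ α).map (algebraMap ℚ sepK)).natDegree * ∏ β ∈ S, β := by
      rw [← hprodS]
      rw [Polynomial.coeff_map, hc] at hprod
      rw [← hprod]
      simp
    have h2 : ‖sep_phi (((minpoly ℤ α).coeff 0 : ℤ) : sepK)‖ = ‖sep_phi (∏ β ∈ S, β)‖ := by
      rw [h1, map_mul, map_pow, map_neg, map_one, norm_mul, norm_pow, norm_neg, norm_one, one_pow, one_mul]
    rw [← h2, map_intCast]
    have h3 : (1 : ℝ) ≤ |(((minpoly ℤ α).coeff 0 : ℤ) : ℝ)| := by
      rw [← Int.cast_abs]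
      exact_mod_cast Int.one_le_abs hc0
    rw [Complex.norm_intCast]
    exact h3
  have hαS : α ∈ S := by
    rw [hS, Multiset.mem_toFinset, ← isConjRoot_iff_mem_minpoly_aroots hαQ]
    exact IsConjRoot.refl
  have hSR : S ⊆ R := by
    intro β hβ
    rw [hS, Multiset.mem_toFinset, ← isConjRoot_iff_mem_minpoly_aroots hαQ] at hβ
    exact hR β hβ
  rw [map_prod, norm_prod, ← Finset.mul_prod_erase S _ hαS] at hnorm
  have h4 : ∏ β ∈ S.erase α, ‖sep_phi β‖ ≤ B ^ (S.erase α).card := by
    rw [← Finset.prod_const]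
    apply Finset.prod_le_prod
    · intro β _; exact norm_nonneg _
    · intro β hβ; exact hn β (hSR (Finset.mem_of_mem_erase hβ))
  have h5 : B ^ (S.erase α).card ≤ B ^ (R.card - 1) := by
    apply pow_le_pow_right₀ hB
    rw [Finset.card_erase_of_mem hαS]
    exact Nat.sub_le_sub_right (Finset.card_le_card hSR) 1
  calc (1 : ℝ) ≤ ‖sep_phi α‖ * ∏ β ∈ S.erase α, ‖sep_phi β‖ := hnorm
    _ ≤ ‖sep_phi α‖ * B ^ (R.card - 1) := by
        apply mul_le_mul_of_nonneg_left (h4.trans h5) (norm_nonneg _)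

/-- Root separation, sharper form with the sum of the square roots. -/
theorem root_sep_sum {ι : Type} [Fintype ι] (ε : ι → Bool) (x : ι → ℕ) (h : ssum ε x ≠ 0) :
    1 ≤ |ssum ε x| * (∑ i, Real.sqrt (x i)) ^ (2 ^ Fintype.card ι - 1) := by
  classical
  choose s hs hphi using fun i => sep_root (x i)
  have hmap : ∀ δ : ι → Bool, sep_phi (∑ i, sep_sg (δ i) * s i) = ((ssum δ x : ℝ) : ℂ) := by
    intro δ
    rw [map_sum, ssum, Complex.ofReal_sum]
    apply Finset.sum_congr rfl
    intro i _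
    rw [map_mul, sep_phi_sg, hphi, Complex.ofReal_mul]
  set α : sepK := ∑ i, sep_sg (ε i) * s i with hαdef
  have hα0 : α ≠ 0 := by
    intro h0
    have h1 := hmap ε
    rw [← hαdef, h0, map_zero] at h1
    exact h (by exact_mod_cast h1.symm)
  have hsint : ∀ i, IsIntegral ℤ (s i) := by
    intro i
    have : IsIntegral ℤ (s i ^ 2) := by
      rw [hs i]
      exact_mod_cast isIntegral_algebraMap (R := ℤ) (A := sepK) (x := (x i : ℤ))
    exact IsIntegral.of_pow (by norm_num) this
  have hsgint : ∀ b, IsIntegral ℤ (sep_sg b) := by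
    intro b
    cases b
    · simp only [sep_sg, Bool.false_eq_true, if_false]
      exact isIntegral_one.neg
    · simp only [sep_sg, if_true]
      exact isIntegral_one
  have hαint : IsIntegral ℤ α := IsIntegral.sum _ (fun i _ => (hsgint _).mul (hsint i))
  set B : ℝ := ∑ i, Real.sqrt (x i) with hBdef
  -- `1 ≤ B`
  have hB : 1 ≤ B := by
    have hex : ∃ i, x i ≠ 0 := by
      by_contra hcon
      push Not at hcon
      apply h
      rw [ssum]
      apply Finset.sum_eq_zero
      intro i _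
      rw [hcon i]; simp
    obtain ⟨i, hi⟩ := hex
    have hA1 : (1 : ℝ) ≤ (x i : ℝ) := by
      exact_mod_cast (Nat.one_le_iff_ne_zero.2 hi)
    have h1 : (1 : ℝ) ≤ Real.sqrt (x i) := by
      rw [show (1 : ℝ) = Real.sqrt 1 by simp]
      exact Real.sqrt_le_sqrt hA1
    refine h1.trans ?_
    rw [hBdef]
    exact Finset.single_le_sum (f := fun i => Real.sqrt (x i : ℝ)) (fun j _ => Real.sqrt_nonneg _)
      (Finset.mem_univ i)
  set R : Finset sepK := Finset.univ.image (fun δ : ι → Bool => ∑ i, sep_sg (δ i) * s i) with hR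
  have hcard : R.card ≤ 2 ^ Fintype.card ι := by
    refine Finset.card_image_le.trans ?_
    rw [Finset.card_univ, Fintype.card_fun, Fintype.card_bool]
  have key := sep_conj α hαint hα0 R B hB ?_ ?_
  · have h1 : ‖sep_phi α‖ = |ssum ε x| := by
      rw [hαdef, hmap, Complex.norm_real, Real.norm_eq_abs]
    rw [h1] at key
    refine key.trans ?_
    apply mul_le_mul_of_nonneg_left _ (abs_nonneg _)
    exact pow_le_pow_right₀ hB (Nat.sub_le_sub_right hcard 1)
  · intro β hβ
    obtain ⟨τ, hτ⟩ := isConjRoot_iff_exists_algEquiv.1 hβ.symm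
    have hτs : ∀ i, ∃ b : Bool, τ (s i) = sep_sg b * s i := by
      intro i
      apply sep_exists_sg
      rw [← map_pow, hs i, map_natCast]
    choose b hb using hτs
    have hτsg : ∀ c, τ (sep_sg c) = sep_sg c := by
      intro c; cases c <;> simp [sep_sg]
    rw [hR, Finset.mem_image]
    refine ⟨fun i => (ε i == b i), Finset.mem_univ _, ?_⟩
    rw [← hτ, hαdef, map_sum]
    apply Finset.sum_congr rfl
    intro i _
    rw [map_mul, hτsg, hb i, ← mul_assoc, sep_sg_mul]
  · intro β hβ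
    rw [hR, Finset.mem_image] at hβ
    obtain ⟨δ, -, rfl⟩ := hβ
    rw [map_sum]
    refine (norm_sum_le _ _).trans ?_
    apply Finset.sum_le_sum
    intro i _
    rw [map_mul, norm_mul, sep_norm_sg, one_mul, hphi, Complex.norm_real, Real.norm_eq_abs,
      abs_of_nonneg (Real.sqrt_nonneg _)]

/-- Root separation.  Proof: put `K = AlgebraicClosure ℚ` and fix `φ : K →+* ℂ`.  Choose `s i : K` with
`s i ^ 2 = x i` and `φ (s i) = √(x i)` (a square root exists in `K`, change its sign if necessary).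
`α = ∑ ± s i` satisfies `φ α = ssum ε x`, it is integral over `ℤ` and not zero.
Let `p = minpoly ℤ α`; its image in `ℚ[X]` is `minpoly ℚ α` (`minpoly.isIntegrallyClosed_eq_field_fractions'`),
so the constant coefficient of `minpoly ℚ α` is a nonzero integer.  `minpoly ℚ α` splits in `K` and is
separable, so `|constant coefficient|` is the product of `‖φ β‖` over its roots `β`
(no repetitions, `α` is one of them).  For each root `β` there is `τ : K ≃ₐ[ℚ] K` with `β = τ α`
(`isConjRoot_iff_exists_algEquiv`), and `τ (s i) = s i` or `- s i`, so `‖φ β‖ ≤ ∑ √(x i) ≤ n √A` and there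
are at most `2 ^ n` roots (each is one of the `2 ^ n` signed sums).  Hence
`1 ≤ |ssum ε x| * (n √A) ^ (number of roots - 1)`, and `n √A ≥ 1` because some `x i ≠ 0`. -/
theorem root_sep {ι : Type} [Fintype ι] (ε : ι → Bool) (x : ι → ℕ) (A : ℕ)
    (hA : ∀ i, x i ≤ A) (h : ssum ε x ≠ 0) :
    1 ≤ |ssum ε x| * ((Fintype.card ι : ℝ) * Real.sqrt A) ^ (2 ^ Fintype.card ι - 1) := by
  have h1 := root_sep_sum ε x h
  have h2 : ∑ i, Real.sqrt (x i) ≤ (Fintype.card ι : ℝ) * Real.sqrt A := by
    have h3 : ∑ i, Real.sqrt (x i) ≤ ∑ _i : ι, Real.sqrt A :=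
      Finset.sum_le_sum (fun i _ => Real.sqrt_le_sqrt (by exact_mod_cast hA i))
    rwa [Finset.sum_const, Finset.card_univ, nsmul_eq_mul] at h3
  have h4 : 0 ≤ ∑ i, Real.sqrt (x i) := Finset.sum_nonneg (fun i _ => Real.sqrt_nonneg _)
  exact h1.trans (mul_le_mul_of_nonneg_left (pow_le_pow_left₀ h4 h2 _) (abs_nonneg _))

end Pool.Agent.H14SR
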