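import Mathlib
import Pool.Agent.Lib.H14SR.Sep

/-! # H14SR chunk ManyA : near solutions which agree outside I are equal -/

namespace Pool.Agent.H14SR

open Finset

private theorem manyA_sg_not (b : Bool) : sg (!b) = - sg b := by
  cases b <;> simp [sg]

private theorem manyA_diff {ι : Type} [Fintype ι] [DecidableEq ι] (I : Finset ι) (ε : ι → Bool) (x y : ι → ℕ)
    (hxy : ∀ i, i ∉ I → x i = y i) :
    ssum (Sum.elim (fun i : I => ε i) (fun i : I => !ε i)) (Sum.elim (fun i : I => x i) (fun i : I => y i))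
      = ssum ε x - ssum ε y := by
  unfold ssum
  rw [Fintype.sum_sum_type, ← Finset.sum_sub_distrib]
  simp only [Sum.elim_inl, Sum.elim_inr, manyA_sg_not]
  rw [← Finset.sum_add_distrib]
  rw [← Finset.sum_subset (Finset.subset_univ I)]
  · rw [← Finset.sum_coe_sort I]
    apply Finset.sum_congr rfl
    intro i _
    ring
  · intro i _ hi
    rw [hxy i hi]
    ring

/-- Two near solutions which agree outside `I` are exactly equal.  Proof: the difference
`ssum ε x - ssum ε y = ∑ i ∈ I, ε i √(x i) - ∑ i ∈ I, ε i √(y i)` is a signed sum over the index type `I ⊕ I`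
with `2 m` elements and entries `≤ A`; if it is not zero then `root_sep` gives
`1 ≤ |difference| * (2 m √A) ^ (2 ^ (2 m) - 1) ≤ |difference| * (2 m √A) ^ (4 ^ m)` (note `2 m √A ≥ 1`
because `x i ≥ 1` for some `i ∈ I`), so `|difference| ≥ 2 * delta m A`; but it is `< 2 * delta m A`. -/
theorem eq_of_near {ι : Type} [Fintype ι] [DecidableEq ι] (I : Finset ι) (m A : ℕ) (hm : 1 ≤ m)
    (hI : I.card = m) (ε : ι → Bool) (x y : ι → ℕ) (t : ℝ) (hx : Gen I x) (hxy : ∀ i, i ∉ I → x i = y i)
    (hxA : ∀ i ∈ I, x i ≤ A) (hyA : ∀ i ∈ I, y i ≤ A)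
    (h1 : |t + ssum ε x| < delta m A) (h2 : |t + ssum ε y| < delta m A) : ssum ε x = ssum ε y := by
  by_contra hne
  have hcard : Fintype.card (I ⊕ I) = 2 * m := by
    rw [Fintype.card_sum, Fintype.card_coe, hI]; ring
  have hsep := root_sep (Sum.elim (fun i : I => ε i) (fun i : I => !ε i))
    (Sum.elim (fun i : I => x i) (fun i : I => y i)) A
    (by
      rintro (i | i)
      · exact hxA i i.2
      · exact hyA i i.2)
    (by
      rw [manyA_diff I ε x y hxy]
      exact sub_ne_zero.mpr hne)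
  rw [manyA_diff I ε x y hxy, hcard] at hsep
  obtain ⟨i0, hi0⟩ : I.Nonempty := by
    rw [← Finset.card_pos]; omega
  have hA1 : (1 : ℝ) ≤ A := by
    have h := hx.1 i0 hi0
    have h' := hxA i0 hi0
    exact_mod_cast le_trans h h'
  have hs1 : (1 : ℝ) ≤ Real.sqrt A := by
    rw [Real.one_le_sqrt]; exact hA1
  have hm1 : (1 : ℝ) ≤ m := by exact_mod_cast hm
  set B : ℝ := 2 * (m : ℝ) * Real.sqrt A with hB
  have hB1 : (1 : ℝ) ≤ B := by
    rw [hB]; nlinarith
  have hBpos : 0 < B ^ (4 ^ m) := by positivity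
  have hcast : (((2 * m : ℕ) : ℝ)) * Real.sqrt A = B := by
    rw [hB]; push_cast; ring
  rw [hcast] at hsep
  have hpow : B ^ (2 ^ (2 * m) - 1) ≤ B ^ (4 ^ m) := by
    apply pow_le_pow_right₀ hB1
    have h4 : 2 ^ (2 * m) = 4 ^ m := by rw [pow_mul]; norm_num
    rw [h4]
    exact Nat.sub_le _ _
  have hle : 1 ≤ |ssum ε x - ssum ε y| * B ^ (4 ^ m) :=
    le_trans hsep (mul_le_mul_of_nonneg_left hpow (abs_nonneg _))
  have hlt : |ssum ε x - ssum ε y| < 2 * delta m A := by
    have h3 : ssum ε x - ssum ε y = (t + ssum ε x) - (t + ssum ε y) := by ring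
    rw [h3]
    have := abs_sub (t + ssum ε x) (t + ssum ε y)
    linarith
  have hdelta : 2 * delta m A = 1 / B ^ (4 ^ m) := by
    unfold delta
    rw [← hB]
    field_simp
  rw [hdelta, lt_div_iff₀ hBpos] at hlt
  linarith

end Pool.Agent.H14SR
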