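import Mathlib
import Pool.Agent.Lib.H14SR.Rat

/-! # H14SR chunk Perm : equal generic sums are permutations of each other -/

namespace Pool.Agent.H14SR

open Finset

/-- Integer sign. -/
private def Perm_sgz (b : Bool) : ℤ := if b then 1 else -1

private theorem Perm_sgz_cast (b : Bool) : ((Perm_sgz b : ℤ) : ℝ) = sg b := by
  unfold Perm_sgz sg
  cases b <;> simp

private theorem Perm_isSquare_mul {a b c : ℕ} (hc : 0 < c) (h1 : IsSquare (a * c))
    (h2 : IsSquare (b * c)) : IsSquare (a * b) := by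
  obtain ⟨r, hr⟩ := h1
  obtain ⟨s, hs⟩ := h2
  have h3 : (a * b) * c ^ 2 = (r * s) ^ 2 := by
    calc (a * b) * c ^ 2 = (a * c) * (b * c) := by ring
      _ = (r * r) * (s * s) := by rw [hr, hs]
      _ = (r * s) ^ 2 := by ring
  have h4 : c ^ 2 ∣ (r * s) ^ 2 := ⟨a * b, by rw [← h3]; ring⟩
  have h5 : c ∣ r * s := (Nat.pow_dvd_pow_iff (by norm_num)).1 h4
  obtain ⟨t, ht⟩ := h5
  refine ⟨t, ?_⟩
  rw [ht] at h3
  have h6 : (a * b) * c ^ 2 = (t * t) * c ^ 2 := by rw [h3]; ring
  exact Nat.eq_of_mul_eq_mul_right (pow_pos hc 2) h6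

private theorem Perm_sum_eq {ι : Type} [Fintype ι] [DecidableEq ι] (I : Finset ι)
    (ε : ι → Bool) (x y : ι → ℕ) (hxy : ∀ i, i ∉ I → x i = y i) (h : ssum ε x = ssum ε y) :
    ∑ j : I, sg (ε j) * Real.sqrt (x j) = ∑ j : I, sg (ε j) * Real.sqrt (y j) := by
  unfold ssum at h
  rw [← Finset.sum_add_sum_compl I, ← Finset.sum_add_sum_compl I] at h
  have h1 : ∑ i ∈ Iᶜ, sg (ε i) * Real.sqrt (x i) = ∑ i ∈ Iᶜ, sg (ε i) * Real.sqrt (y i) := by
    refine Finset.sum_congr rfl fun i hi => ?_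
    rw [hxy i (Finset.mem_compl.1 hi)]
  rw [h1] at h
  have h2 := add_right_cancel h
  rw [← Finset.sum_coe_sort I, ← Finset.sum_coe_sort I] at h2
  exact h2

private theorem Perm_relation {ι : Type} [Fintype ι] [DecidableEq ι] (I : Finset ι)
    (ε : ι → Bool) (x y : ι → ℕ)
    (h : ∑ j : I, sg (ε j) * Real.sqrt (x j) = ∑ j : I, sg (ε j) * Real.sqrt (y j)) (i : I) :
    (∑ j : I, (if IsSquare (x j * x i) then Perm_sgz (ε j) * (Nat.sqrt (x j * x i) : ℤ) else 0))
      = ∑ j : I, (if IsSquare (y j * x i) then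
          Perm_sgz (ε j) * (Nat.sqrt (y j * x i) : ℤ) else 0) := by
  have key := rational_part (ι := I ⊕ I)
    (Sum.elim (fun j => Perm_sgz (ε j)) (fun j => - Perm_sgz (ε j)))
    (Sum.elim (fun j => x j * x i) (fun j => y j * x i)) (by
      rw [Fintype.sum_sum_type]
      simp only [Sum.elim_inl, Sum.elim_inr, Int.cast_neg, Perm_sgz_cast, Nat.cast_mul]
      have e1 : ∀ j : I, sg (ε j) * Real.sqrt ((x j : ℝ) * (x i : ℝ))
          = sg (ε j) * Real.sqrt (x j) * Real.sqrt (x i) := by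
        intro j
        rw [Real.sqrt_mul (Nat.cast_nonneg _)]; ring
      have e2 : ∀ j : I, - sg (ε j) * Real.sqrt ((y j : ℝ) * (x i : ℝ))
          = - (sg (ε j) * Real.sqrt (y j) * Real.sqrt (x i)) := by
        intro j
        rw [Real.sqrt_mul (Nat.cast_nonneg _)]; ring
      rw [Finset.sum_congr rfl fun j _ => e1 j, Finset.sum_congr rfl fun j _ => e2 j,
        Finset.sum_neg_distrib, ← Finset.sum_mul, ← Finset.sum_mul, h]
      ring)
  rw [Fintype.sum_sum_type] at key
  simp only [Sum.elim_inl, Sum.elim_inr] at key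
  have e3 : ∑ j : I, (if IsSquare (y j * x i) then
        - Perm_sgz (ε j) * (Nat.sqrt (y j * x i) : ℤ) else 0)
      = - ∑ j : I, (if IsSquare (y j * x i) then
          Perm_sgz (ε j) * (Nat.sqrt (y j * x i) : ℤ) else 0) := by
    rw [← Finset.sum_neg_distrib]
    refine Finset.sum_congr rfl fun j _ => ?_
    split_ifs
    · ring
    · simp
  rw [e3] at key
  linarith

private theorem Perm_exists {ι : Type} [Fintype ι] [DecidableEq ι] (I : Finset ι)
    (ε : ι → Bool) (x y : ι → ℕ) (hx : Gen I x) (hy : Gen I y)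
    (h : ∑ j : I, sg (ε j) * Real.sqrt (x j) = ∑ j : I, sg (ε j) * Real.sqrt (y j)) (i : I) :
    ∃ j : I, y j = x i := by
  have hrel := Perm_relation I ε x y h i
  have hxi : 0 < x i := hx.1 i i.2
  have hl : (∑ j : I, (if IsSquare (x j * x i) then
      Perm_sgz (ε j) * (Nat.sqrt (x j * x i) : ℤ) else 0)) = Perm_sgz (ε i) * (x i : ℤ) := by
    rw [Finset.sum_eq_single i]
    · rw [if_pos ⟨x i, rfl⟩, Nat.sqrt_eq]
    · intro j _ hji
      rw [if_neg]
      exact hx.2 j j.2 i i.2 (fun hc => hji (Subtype.ext hc))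
    · intro hc
      exact absurd (Finset.mem_univ i) hc
  rw [hl] at hrel
  have hsgz : ∀ b : Bool, Perm_sgz b = 1 ∨ Perm_sgz b = -1 := by
    intro b
    unfold Perm_sgz
    cases b <;> simp
  have hxiZ : (0 : ℤ) < (x i : ℤ) := by exact_mod_cast hxi
  have hex : ∃ j : I, IsSquare (y j * x i) := by
    by_contra hne
    push Not at hne
    have hz : ∑ j : I, (if IsSquare (y j * x i) then
        Perm_sgz (ε j) * (Nat.sqrt (y j * x i) : ℤ) else 0) = 0 := by
      refine Finset.sum_eq_zero fun j _ => ?_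
      rw [if_neg (hne j)]
    rw [hz] at hrel
    rcases hsgz (ε i) with h1 | h1 <;> rw [h1] at hrel <;> linarith
  obtain ⟨j, hj⟩ := hex
  have hr : ∑ k : I, (if IsSquare (y k * x i) then
        Perm_sgz (ε k) * (Nat.sqrt (y k * x i) : ℤ) else 0)
      = Perm_sgz (ε j) * (Nat.sqrt (y j * x i) : ℤ) := by
    rw [Finset.sum_eq_single j]
    · rw [if_pos hj]
    · intro k _ hkj
      rw [if_neg]
      intro hk
      exact hy.2 k k.2 j j.2 (fun hc => hkj (Subtype.ext hc)) (Perm_isSquare_mul hxi hk hj)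
    · intro hc
      exact absurd (Finset.mem_univ j) hc
  rw [hr] at hrel
  refine ⟨j, ?_⟩
  obtain ⟨r, hrr⟩ := hj
  rw [hrr, Nat.sqrt_eq] at hrel
  have hrx : (x i : ℤ) = (r : ℤ) := by
    have hr0 : (0 : ℤ) ≤ (r : ℤ) := Int.natCast_nonneg r
    rcases hsgz (ε i) with h1 | h1 <;> rcases hsgz (ε j) with h2 | h2 <;>
      rw [h1, h2] at hrel <;> linarith
  have hrx' : x i = r := by exact_mod_cast hrx
  rw [← hrx'] at hrr
  exact Nat.eq_of_mul_eq_mul_right hxi hrr

/-- Proof: `∑ i ∈ I, ε i √(x i) = ∑ i ∈ I, ε i √(y i)` (the other terms cancel).  Fix `i ∈ I`, multiply by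
`√(x i)` and apply `rational_part` (index type `I ⊕ I`, coefficients `± 1`, radicands `x j * x i` and `y j * x i`).
Among the `x j * x i`, `j ∈ I`, only `j = i` gives a square (`Gen I x`), with root `x i`.  Among the
`y j * x i` at most one is a square: if `y j * x i` and `y k * x i` are squares then so is `y j * y k`
(`y j * y k * x i ^ 2` is a square, `x i > 0`), so `j = k` by `Gen I y`.  The relation says
`ε i x i = ∑ j, [y j * x i square] ε j Nat.sqrt (y j * x i)`, the left side is not zero, so there is exactly one such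
`j =: τ i`, and taking absolute values `Nat.sqrt (y j * x i) = x i`, so `y j = x i`.
`τ : I → I` is injective (`x i = x k` with `i ≠ k` would make `x i * x k` a square), hence bijective; take
`σ` its inverse: `y j = x (σ j)`. -/
theorem gen_perm {ι : Type} [Fintype ι] [DecidableEq ι] (I : Finset ι) (ε : ι → Bool) (x y : ι → ℕ)
    (hx : Gen I x) (hy : Gen I y) (hxy : ∀ i, i ∉ I → x i = y i) (h : ssum ε x = ssum ε y) :
    ∃ σ : Equiv.Perm I, ∀ i : I, y i = x (σ i) := by
  have hs := Perm_sum_eq I ε x y hxy h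
  have hex := Perm_exists I ε x y hx hy hs
  choose τ hτ using hex
  have hinj : Function.Injective τ := by
    intro i k hik
    by_contra hne
    have h1 : x i = x k := by rw [← hτ i, ← hτ k, hik]
    refine hx.2 i i.2 k k.2 (fun hc => hne (Subtype.ext hc)) ?_
    rw [h1]
    exact ⟨x k, rfl⟩
  have hbij : Function.Bijective τ := Finite.injective_iff_bijective.1 hinj
  refine ⟨(Equiv.ofBijective τ hbij).symm, fun j => ?_⟩
  rw [← hτ ((Equiv.ofBijective τ hbij).symm j)]
  have h2 : τ ((Equiv.ofBijective τ hbij).symm j) = j :=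
    (Equiv.ofBijective τ hbij).apply_symm_apply j
  rw [h2]

end Pool.Agent.H14SR
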