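import Mathlib
import Pool.Agent.Lib.H14SR.ManyA
import Pool.Agent.Lib.H14SR.Perm
import Pool.Agent.Lib.H14SR.Fib

/-! # H14SR chunk Many : near solutions with generic entries are rare -/

namespace Pool.Agent.H14SR

open Finset

/-- A square factor can be removed from a square. -/
theorem manyB_sq {k n : ℕ} (hk : 0 < k) (h : IsSquare (k ^ 2 * n)) : IsSquare n := by
  obtain ⟨s, hs⟩ := h
  have hd : k ^ 2 ∣ s ^ 2 := ⟨n, by rw [hs, sq]⟩
  obtain ⟨u, rfl⟩ := (Nat.pow_dvd_pow_iff (two_ne_zero)).1 hd
  refine ⟨u, ?_⟩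
  have h2 : k ^ 2 * n = k ^ 2 * (u * u) := by
    rw [hs]
    ring
  exact Nat.eq_of_mul_eq_mul_left (pow_pos hk 2) h2

/-- Genericity is kept when the entries are multiplied by positive squares. -/
theorem manyB_gen {ι : Type} (I : Finset ι) (c x : ι → ℕ) (hc : ∀ i ∈ I, 0 < c i)
    (hx : Gen I x) : Gen I (fun i => c i ^ 2 * x i) := by
  refine ⟨fun i hi => Nat.mul_pos (pow_pos (hc i hi) 2) (hx.1 i hi), ?_⟩
  intro i hi j hj hij hsq
  apply hx.2 i hi j hj hij
  apply manyB_sq (Nat.mul_pos (hc i hi) (hc j hj))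
  have e : (c i * c j) ^ 2 * (x i * x j) = c i ^ 2 * x i * (c j ^ 2 * x j) := by ring
  rw [e]
  exact hsq

open Classical in
/-- Version with positive integer coefficients `c i` (`c i * √(y) = √(c i ^ 2 * y)`).
Proof: `card_le_of_fiber` with `U = I`, `c = m!`.  Write `X r i = c i ^ 2 * shift a r i`; `Gen I (shift a r)` gives
`Gen I (X r)` (`c i > 0` on `I`; `c i ^ 2 * y * (c j ^ 2 * z)` is a square iff `y * z` is).  In a fiber (fixed `r₀` in the
set, `r` in the set equal to `r₀` outside `I`) `eq_of_near` and `gen_perm` for `X r₀`, `X r` give `σ` with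
`X r i = X r₀ (σ i)` for `i ∈ I`; `σ` determines `r`, so the fiber has at most `card (Equiv.Perm I) = m!`
elements. -/
theorem many_classes_c {ι : Type} [Fintype ι] (I : Finset ι) (m A H : ℕ) (hm : 1 ≤ m)
    (hI : I.card = m) (ε : ι → Bool) (c a : ι → ℕ) (t : ℝ) (hc : ∀ i ∈ I, 0 < c i)
    (hA : ∀ i ∈ I, c i ^ 2 * (a i + H) ≤ A) :
    ((Finset.univ : Finset (ι → Fin H)).filter
        (fun r => Gen I (shift a r) ∧
          |t + ssum ε (fun i => c i ^ 2 * shift a r i)| < delta m A)).card
      ≤ H ^ (Fintype.card ι - m) * m.factorial := by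
  have hsh : ∀ (r : ι → Fin H), ∀ i ∈ I, c i ^ 2 * shift a r i ≤ A := by
    intro r i hi
    have h1 := hA i hi
    have h2 := (r i).isLt
    have h3 : shift a r i ≤ a i + H := by
      unfold shift
      omega
    exact (Nat.mul_le_mul_left _ h3).trans h1
  have key := card_le_of_fiber ((Finset.univ : Finset (ι → Fin H)).filter
        (fun r => Gen I (shift a r) ∧
          |t + ssum ε (fun i => c i ^ 2 * shift a r i)| < delta m A)) I m.factorial ?_
  · rw [Fintype.card_fin, hI] at key
    exact key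
  intro f hf
  rw [Finset.mem_filter] at hf
  obtain ⟨-, hgf, hnf⟩ := hf
  have hex : ∀ g ∈ (((Finset.univ : Finset (ι → Fin H)).filter
        (fun r => Gen I (shift a r) ∧
          |t + ssum ε (fun i => c i ^ 2 * shift a r i)| < delta m A)).filter
        (fun g => ∀ i, i ∉ I → g i = f i)),
      ∃ σ : Equiv.Perm I, ∀ i : I,
        c i ^ 2 * shift a g i = c (σ i) ^ 2 * shift a f (σ i) := by
    intro g hg
    rw [Finset.mem_filter, Finset.mem_filter] at hg
    obtain ⟨⟨-, hgg, hng⟩, hout⟩ := hg
    have hxy : ∀ i, i ∉ I → c i ^ 2 * shift a f i = c i ^ 2 * shift a g i := by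
      intro i hi
      unfold shift
      rw [hout i hi]
    exact gen_perm I ε (fun i => c i ^ 2 * shift a f i) (fun i => c i ^ 2 * shift a g i)
      (manyB_gen I c _ hc hgf) (manyB_gen I c _ hc hgg) hxy
      (eq_of_near I m A hm hI ε (fun i => c i ^ 2 * shift a f i) (fun i => c i ^ 2 * shift a g i) t
        (manyB_gen I c _ hc hgf) hxy (hsh f) (hsh g) hnf hng)
  choose! F hF using hex
  calc _ ≤ (Finset.univ : Finset (Equiv.Perm I)).card := by
        refine Finset.card_le_card_of_injOn F (fun _ _ => Finset.mem_coe.mpr (Finset.mem_univ _)) ?_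
        intro g hg g' hg' hgg'
        rw [Finset.mem_coe] at hg hg'
        have h1 := hF g hg
        have h2 := hF g' hg'
        rw [Finset.mem_filter] at hg hg'
        funext i
        by_cases hi : i ∈ I
        · have e1 := h1 ⟨i, hi⟩
          have e2 := h2 ⟨i, hi⟩
          rw [hgg'] at e1
          have e3 : c i ^ 2 * shift a g i = c i ^ 2 * shift a g' i := e1.trans e2.symm
          have e4 := Nat.eq_of_mul_eq_mul_left (pow_pos (hc i hi) 2) e3
          unfold shift at e4
          apply Fin.ext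
          simpa using e4
        · rw [hg.2 i hi, hg'.2 i hi]
    _ = m.factorial := by
        rw [Finset.card_univ, Fintype.card_perm, Fintype.card_coe, hI]

end Pool.Agent.H14SR
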