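import Mathlib
import Pool.Agent.Lib.H14SR.Defs

/-! # H14SR : product sets of arbitrary `H`-element sets

`f i : Fin H → ℕ` injective enumerates a set of `H` natural numbers. -/

namespace Pool.Agent.H14SR

/-- The instance with entries `f i (r i)`. -/
def val {ι : Type} {H : ℕ} (f : ι → Fin H → ℕ) (r : ι → Fin H) : ι → ℕ := fun i => f i (r i)

/-- The scale `(1/2) (2 n C √A)^(-(4^m))`. -/
noncomputable def dl (n C A m : ℕ) : ℝ :=
  1 / (2 * (2 * (n : ℝ) * C * Real.sqrt A) ^ (4 ^ m))

end Pool.Agent.H14SR
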