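import Mathlib
import Pool.Agent.Lib.H14SR.Many
import Pool.Agent.Lib.H14SR.Val

/-! # H14SR : `many_classes` for arbitrary `H`-element sets -/

namespace Pool.Agent.H14SR

open Finset

open Classical in
/-- `many_classes_c` for entries in arbitrary `H`-element sets. -/
theorem many_classes_f {ι : Type} [Fintype ι] (I : Finset ι) (m A H : ℕ) (hm : 1 ≤ m)
    (hI : I.card = m) (ε : ι → Bool) (c : ι → ℕ) (f : ι → Fin H → ℕ) (t : ℝ) (hc : ∀ i ∈ I, 0 < c i)
    (hf : ∀ i, Function.Injective (f i)) (hA : ∀ i ∈ I, ∀ h, c i ^ 2 * f i h ≤ A) :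
    ((Finset.univ : Finset (ι → Fin H)).filter
        (fun r => Gen I (val f r) ∧
          |t + ssum ε (fun i => c i ^ 2 * val f r i)| < delta m A)).card
      ≤ H ^ (Fintype.card ι - m) * m.factorial := by
  have hsh : ∀ (r : ι → Fin H), ∀ i ∈ I, c i ^ 2 * val f r i ≤ A := fun r i hi => hA i hi (r i)
  have key := card_le_of_fiber ((Finset.univ : Finset (ι → Fin H)).filter
        (fun r => Gen I (val f r) ∧
          |t + ssum ε (fun i => c i ^ 2 * val f r i)| < delta m A)) I m.factorial ?_
  · rw [Fintype.card_fin, hI] at key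
    exact key
  intro f0 hf0
  rw [Finset.mem_filter] at hf0
  obtain ⟨-, hgf, hnf⟩ := hf0
  have hex : ∀ g ∈ (((Finset.univ : Finset (ι → Fin H)).filter
        (fun r => Gen I (val f r) ∧
          |t + ssum ε (fun i => c i ^ 2 * val f r i)| < delta m A)).filter
        (fun g => ∀ i, i ∉ I → g i = f0 i)),
      ∃ σ : Equiv.Perm I, ∀ i : I,
        c i ^ 2 * val f g i = c (σ i) ^ 2 * val f f0 (σ i) := by
    intro g hg
    rw [Finset.mem_filter, Finset.mem_filter] at hg
    obtain ⟨⟨-, hgg, hng⟩, hout⟩ := hg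
    have hxy : ∀ i, i ∉ I → c i ^ 2 * val f f0 i = c i ^ 2 * val f g i := by
      intro i hi
      unfold val
      rw [hout i hi]
    exact gen_perm I ε (fun i => c i ^ 2 * val f f0 i) (fun i => c i ^ 2 * val f g i)
      (manyB_gen I c _ hc hgf) (manyB_gen I c _ hc hgg) hxy
      (eq_of_near I m A hm hI ε (fun i => c i ^ 2 * val f f0 i) (fun i => c i ^ 2 * val f g i) t
        (manyB_gen I c _ hc hgf) hxy (hsh f0) (hsh g) hnf hng)
  choose! F hF using hex
  calc _ ≤ (Finset.univ : Finset (Equiv.Perm I)).card := by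
        refine Finset.card_le_card_of_injOn F (fun _ _ => Finset.mem_coe.mpr (Finset.mem_univ _)) ?_
        intro g hg g' hg' hgg'
        rw [Finset.mem_coe] at hg hg'
        have h1 := hF g hg
        have h2 := hF g' hg'
        rw [Finset.mem_filter] at hg hg'
        funext i
        by_cases hi : i ∈ I
        · have e1 := h1 ⟨i, hi⟩
          have e2 := h2 ⟨i, hi⟩
          rw [hgg'] at e1
          have e3 : c i ^ 2 * val f g i = c i ^ 2 * val f g' i := e1.trans e2.symm
          have e4 := Nat.eq_of_mul_eq_mul_left (pow_pos (hc i hi) 2) e3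
          unfold val at e4
          exact hf i e4
        · rw [hg.2 i hi, hg'.2 i hi]
    _ = m.factorial := by
        rw [Finset.card_univ, Fintype.card_perm, Fintype.card_coe, hI]

end Pool.Agent.H14SR
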