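import Mathlib
import Pool.Agent.Lib.H14SR.ManyF

/-! # H14SR chunk AvgF (arbitrary H-element sets, proof of helper65) : near solutions with many square classes are rare (double counting) -/

namespace Pool.Agent.H14SR

open Finset

/-- The central binomial coefficient is at least `2 ^ m`. -/
theorem avgf_choose (m : ℕ) : 2 ^ m ≤ (2 * m).choose m := by
  have h : ∀ k : ℕ, 2 ^ k ≤ Nat.centralBinom k := by
    intro k
    induction k with
    | zero => simp
    | succ k ih =>
      have h1 := Nat.succ_mul_centralBinom_succ k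
      have h2 : (k + 1) * 2 ^ (k + 1) ≤ (k + 1) * Nat.centralBinom (k + 1) := by
        rw [h1, pow_succ]
        nlinarith
      exact Nat.le_of_mul_le_mul_left h2 (Nat.succ_pos k)
  exact h m

open Classical in
/-- Proof: for every `I ⊆ J` with `m` elements `many_classes_f` bounds the number of `r` with
`Gen I (val f r)` and `|t + ...| < delta m A` by `H ^ (n - m) * m!`.  Sum over the `I ∈ J.powersetCard m`:
`(J.card).choose m * m! * H ^ (n - m) ≤ J.card ^ m * H ^ (n - m)` (`Nat.descFactorial`).  On the other side every `r` of the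
set below is counted at least `(2 m).choose m ≥ 2 ^ m` times: all `m`-element subsets of a generic set with
`2 m` elements are generic. -/
theorem near_count_f {ι : Type} [Fintype ι] (J : Finset ι) (m A H : ℕ) (hm : 1 ≤ m)
    (ε : ι → Bool) (c : ι → ℕ) (f : ι → Fin H → ℕ) (t : ℝ) (hc : ∀ i ∈ J, 0 < c i)
    (hf : ∀ i, Function.Injective (f i)) (hA : ∀ i ∈ J, ∀ h, c i ^ 2 * f i h ≤ A) :
    2 ^ m * ((Finset.univ : Finset (ι → Fin H)).filter
        (fun r => (∃ I ⊆ J, I.card = 2 * m ∧ Gen I (val f r)) ∧
          |t + ssum ε (fun i => c i ^ 2 * val f r i)| < delta m A)).card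
      ≤ J.card ^ m * H ^ (Fintype.card ι - m) := by
  have hP : ∀ I ∈ J.powersetCard m, ((Finset.univ : Finset (ι → Fin H)).filter
        (fun r => Gen I (val f r) ∧
          |t + ssum ε (fun i => c i ^ 2 * val f r i)| < delta m A)).card
      ≤ H ^ (Fintype.card ι - m) * m.factorial := by
    intro I hI
    rw [Finset.mem_powersetCard] at hI
    exact many_classes_f I m A H hm hI.2 ε c f t (fun i hi => hc i (hI.1 hi)) hf (fun i hi => hA i (hI.1 hi))
  have h1 : ∀ r ∈ ((Finset.univ : Finset (ι → Fin H)).filter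
        (fun r => (∃ I ⊆ J, I.card = 2 * m ∧ Gen I (val f r)) ∧
          |t + ssum ε (fun i => c i ^ 2 * val f r i)| < delta m A)),
      2 ^ m ≤ ((J.powersetCard m).filter (fun I => Gen I (val f r) ∧
          |t + ssum ε (fun i => c i ^ 2 * val f r i)| < delta m A)).card := by
    intro r hr
    rw [Finset.mem_filter] at hr
    obtain ⟨-, ⟨I₀, hI₀, hcard, hgen⟩, hnear⟩ := hr
    have h2 : I₀.powersetCard m ⊆ (J.powersetCard m).filter (fun I => Gen I (val f r) ∧
          |t + ssum ε (fun i => c i ^ 2 * val f r i)| < delta m A) := by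
      intro I hI
      rw [Finset.mem_powersetCard] at hI
      rw [Finset.mem_filter, Finset.mem_powersetCard]
      refine ⟨⟨hI.1.trans hI₀, hI.2⟩, ⟨fun i hi => hgen.1 i (hI.1 hi), ?_⟩, hnear⟩
      intro i hi j hj hij
      exact hgen.2 i (hI.1 hi) j (hI.1 hj) hij
    calc 2 ^ m ≤ (2 * m).choose m := avgf_choose m
      _ = (I₀.powersetCard m).card := by rw [Finset.card_powersetCard, hcard]
      _ ≤ _ := Finset.card_le_card h2
  have h3 := Finset.sum_card_bipartiteAbove_eq_sum_card_bipartiteBelow
    (s := ((Finset.univ : Finset (ι → Fin H)).filter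
        (fun r => (∃ I ⊆ J, I.card = 2 * m ∧ Gen I (val f r)) ∧
          |t + ssum ε (fun i => c i ^ 2 * val f r i)| < delta m A)))
    (t := J.powersetCard m)
    (fun (r : ι → Fin H) (I : Finset ι) => Gen I (val f r) ∧
          |t + ssum ε (fun i => c i ^ 2 * val f r i)| < delta m A)
  have h4 := Finset.card_nsmul_le_sum _ _ _ h1
  have h5 : ∀ I ∈ J.powersetCard m, (Finset.bipartiteBelow
      (fun (r : ι → Fin H) (I : Finset ι) => Gen I (val f r) ∧
          |t + ssum ε (fun i => c i ^ 2 * val f r i)| < delta m A)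
      ((Finset.univ : Finset (ι → Fin H)).filter
        (fun r => (∃ I ⊆ J, I.card = 2 * m ∧ Gen I (val f r)) ∧
          |t + ssum ε (fun i => c i ^ 2 * val f r i)| < delta m A)) I).card ≤
      H ^ (Fintype.card ι - m) * m.factorial := by
    intro I hI
    refine le_trans (Finset.card_le_card ?_) (hP I hI)
    intro r hr
    rw [Finset.mem_bipartiteBelow] at hr
    exact Finset.mem_filter.2 ⟨Finset.mem_univ _, hr.2⟩
  have h6 := Finset.sum_le_card_nsmul _ _ _ h5
  rw [Finset.card_powersetCard] at h6
  have h7 : J.card.choose m * m.factorial ≤ J.card ^ m := by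
    rw [mul_comm, ← Nat.descFactorial_eq_factorial_mul_choose]
    exact Nat.descFactorial_le_pow _ _
  calc _ ≤ _ := by
        rw [mul_comm, ← smul_eq_mul]
        exact h4
    _ = _ := h3
    _ ≤ _ := h6
    _ = (J.card.choose m * m.factorial) * H ^ (Fintype.card ι - m) := by
        rw [smul_eq_mul]
        ring
    _ ≤ _ := Nat.mul_le_mul_right _ h7

end Pool.Agent.H14SR
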