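import Mathlib
import Pool.Agent.Lib.H14SR.Defs

/-! # H14SR chunk Cls : few numbers of an interval lie in a given square class -/

namespace Pool.Agent.H14SR

open Finset

private theorem cls_aux_sq (b m : ℕ) (hb : 0 < b) (h : IsSquare (b ^ 2 * m)) : IsSquare m := by
  obtain ⟨k, hk⟩ := h
  have h1 : b ^ 2 ∣ k ^ 2 := ⟨m, by rw [hk]; ring⟩
  have h2 : b ∣ k := (Nat.pow_dvd_pow_iff (by norm_num)).1 h1
  obtain ⟨l, rfl⟩ := h2
  refine ⟨l, ?_⟩
  have h3 : b ^ 2 * m = b ^ 2 * (l * l) := by rw [hk]; ring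
  exact Nat.eq_of_mul_eq_mul_left (by positivity) h3

private theorem cls_aux (z : ℕ) (hz : 0 < z) :
    ∃ q : ℕ, 0 < q ∧ ∀ y : ℕ, IsSquare (z * y) → ∃ s : ℕ, y = q * s ^ 2 := by
  obtain ⟨q, b, hq, hsq⟩ := Nat.sq_mul_squarefree z
  have hq0 : 0 < q := Nat.pos_of_ne_zero hsq.ne_zero
  have hb : 0 < b := by
    rcases Nat.eq_zero_or_pos b with h | h
    · subst h
      simp at hq
      omega
    · exact h
  refine ⟨q, hq0, ?_⟩
  intro y hy
  have h1 : IsSquare (q * y) := by
    apply cls_aux_sq b (q * y) hb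
    have h : b ^ 2 * (q * y) = z * y := by rw [← hq]; ring
    rw [h]
    exact hy
  obtain ⟨t, ht⟩ := h1
  have h2 : q ∣ t ^ 2 := ⟨y, by rw [ht]; ring⟩
  have h3 : q ∣ t := (hsq.dvd_pow_iff_dvd (by norm_num)).1 h2
  obtain ⟨s, rfl⟩ := h3
  refine ⟨s, ?_⟩
  have h4 : q * y = q * (q * s ^ 2) := by rw [ht]; ring
  exact Nat.eq_of_mul_eq_mul_left hq0 h4

/-- Proof: write `z = b ^ 2 * q` with `q` squarefree (`Nat.sq_mul_squarefree`).  If `0 < y` and `z * y` is a
square then `y = q * s ^ 2` for some `s` (write `y = c ^ 2 * q'`, `q'` squarefree; `q * q'` is a square, so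
`q = q'`).  Let `s₀` be the least `s` that occurs for `y` in `[a, a+H)`.  For every other
`s`: `(s - s₀) ^ 2 ≤ s ^ 2 - s₀ ^ 2 ≤ q * (s ^ 2 - s₀ ^ 2) ≤ H - 1`, so `s - s₀ ≤ Nat.sqrt (H - 1)`; `y ↦ s` is injective. -/
theorem class_count (z a H : ℕ) (hz : 0 < z) (hH : 0 < H) :
    ((Finset.range H).filter (fun r => 0 < a + r ∧ IsSquare (z * (a + r)))).card
      ≤ Nat.sqrt (H - 1) + 1 := by
  classical
  obtain ⟨q, hq0, hq⟩ := cls_aux z hz
  choose! s hs using hq
  set S := (Finset.range H).filter (fun r => 0 < a + r ∧ IsSquare (z * (a + r))) with hS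
  rcases S.eq_empty_or_nonempty with h0 | h0
  · rw [h0]
    simp
  obtain ⟨r₀, hr₀, hmin⟩ := Finset.exists_min_image S (fun r => s (a + r)) h0
  have hmem : ∀ r ∈ S, r < H ∧ a + r = q * s (a + r) ^ 2 := by
    intro r hr
    rw [hS, Finset.mem_filter, Finset.mem_range] at hr
    exact ⟨hr.1, hs _ hr.2.2⟩
  have hcard : S.card ≤ (Finset.range (Nat.sqrt (H - 1) + 1)).card := by
    apply Finset.card_le_card_of_injOn (fun r => s (a + r) - s (a + r₀))
    · intro r hr
      have hr' : r ∈ S := hr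
      obtain ⟨h1, h2⟩ := hmem r hr'
      obtain ⟨h3, h4⟩ := hmem r₀ hr₀
      have h5 := hmin r hr'
      simp only [Finset.coe_range, Set.mem_Iio]
      rw [Nat.lt_succ_iff, Nat.le_sqrt']
      obtain ⟨d, hd⟩ := Nat.exists_eq_add_of_le h5
      have h6 : s (a + r) - s (a + r₀) = d := by omega
      rw [h6]
      rw [hd] at h2
      have h7 : q * (s (a + r₀) + d) ^ 2 = q * s (a + r₀) ^ 2 + q * (2 * s (a + r₀) * d) + q * d ^ 2 := by
        ring
      have h8 : d ^ 2 ≤ q * d ^ 2 := Nat.le_mul_of_pos_left _ hq0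
      have h9 : 0 ≤ q * (2 * s (a + r₀) * d) := Nat.zero_le _
      omega
    · intro r hr r' hr' heq
      have hr1 : r ∈ S := hr
      have hr2 : r' ∈ S := hr'
      obtain ⟨-, h2⟩ := hmem r hr1
      obtain ⟨-, h4⟩ := hmem r' hr2
      have h5 := hmin r hr1
      have h6 := hmin r' hr2
      have h8 : s (a + r) - s (a + r₀) = s (a + r') - s (a + r₀) := heq
      have h7 : s (a + r) = s (a + r') := by omega
      rw [h7] at h2
      omega
  rw [Finset.card_range] at hcard
  exact hcard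

/-- Union bound over `j ∈ J` in `class_count`, and at most one `r` with `a + r = 0`. -/
theorem few_choices {ι : Type} [DecidableEq ι] (J : Finset ι) (x : ι → ℕ) (a H : ℕ)
    (hx : ∀ j ∈ J, 0 < x j) :
    ((Finset.univ : Finset (Fin H)).filter
        (fun r : Fin H => a + (r : ℕ) = 0 ∨ ∃ j ∈ J, IsSquare ((a + (r : ℕ)) * x j))).card
      ≤ 1 + J.card * (Nat.sqrt (H - 1) + 1) := by
  classical
  rcases Nat.eq_zero_or_pos H with h0 | hH
  · subst h0
    have : ((Finset.univ : Finset (Fin 0)).filter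
        (fun r : Fin 0 => a + (r : ℕ) = 0 ∨ ∃ j ∈ J, IsSquare ((a + (r : ℕ)) * x j))) = ∅ := by
      apply Finset.eq_empty_of_forall_notMem
      intro r
      exact r.elim0
    rw [this]
    simp
  set U : Finset (Fin H) := (Finset.univ : Finset (Fin H)).filter (fun r : Fin H => a + (r : ℕ) = 0)
  set V : ι → Finset (Fin H) := fun j => (Finset.univ : Finset (Fin H)).filter
    (fun r : Fin H => 0 < a + (r : ℕ) ∧ IsSquare (x j * (a + (r : ℕ))))
  have hsub : ((Finset.univ : Finset (Fin H)).filter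
      (fun r : Fin H => a + (r : ℕ) = 0 ∨ ∃ j ∈ J, IsSquare ((a + (r : ℕ)) * x j)))
      ⊆ U ∪ J.biUnion V := by
    intro r hr
    rw [Finset.mem_filter] at hr
    rw [Finset.mem_union, Finset.mem_biUnion]
    rcases Nat.eq_zero_or_pos (a + (r : ℕ)) with h | h
    · left
      exact Finset.mem_filter.2 ⟨Finset.mem_univ _, h⟩
    · right
      rcases hr.2 with h' | ⟨j, hj, hsq⟩
      · omega
      · refine ⟨j, hj, Finset.mem_filter.2 ⟨Finset.mem_univ _, h, ?_⟩⟩
        rw [mul_comm]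
        exact hsq
  have hU : U.card ≤ 1 := by
    rw [Finset.card_le_one]
    intro r hr r' hr'
    have h1 := (Finset.mem_filter.1 hr).2
    have h2 := (Finset.mem_filter.1 hr').2
    apply Fin.ext
    omega
  have hV : ∀ j ∈ J, (V j).card ≤ Nat.sqrt (H - 1) + 1 := by
    intro j hj
    refine le_trans ?_ (class_count (x j) a H (hx j hj) hH)
    apply Finset.card_le_card_of_injOn (fun r : Fin H => (r : ℕ))
    · intro r hr
      have h1 := (Finset.mem_filter.1 (show r ∈ V j from hr)).2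
      simp only [Finset.coe_filter, Finset.mem_range, Set.mem_ofPred_eq]
      exact ⟨r.2, h1⟩
    · intro r _ r' _ h
      exact Fin.ext h
  calc _ ≤ (U ∪ J.biUnion V).card := Finset.card_le_card hsub
    _ ≤ U.card + (J.biUnion V).card := Finset.card_union_le _ _
    _ ≤ 1 + J.card * (Nat.sqrt (H - 1) + 1) := by
        refine Nat.add_le_add hU (Finset.card_biUnion_le_card_mul _ _ _ hV)

end Pool.Agent.H14SR
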