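import Mathlib
import Pool.Agent.Lib.H14SR.Sep

/-! # H14SR chunk SepC : root separation in terms of the number of square classes -/

namespace Pool.Agent.H14SR

open Finset

private lemma sc_eq_of_square {a b s t r : ℕ} (hs : s ≠ 0) (ht : t ≠ 0) (ha : Squarefree a) (hb : Squarefree b)
    (h : (s ^ 2 * a) * (t ^ 2 * b) = r * r) : a = b := by
  have ha0 : a ≠ 0 := ha.ne_zero
  have hb0 : b ≠ 0 := hb.ne_zero
  have hr0 : r ≠ 0 := by
    rintro rfl
    have : (s ^ 2 * a) * (t ^ 2 * b) ≠ 0 := by positivity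
    exact this (by rw [h])
  refine Nat.eq_of_factorization_eq ha0 hb0 (fun p => ?_)
  have h1 := congrArg (fun n => Nat.factorization n p) h
  have hsa : s ^ 2 * a ≠ 0 := by positivity
  have htb : t ^ 2 * b ≠ 0 := by positivity
  rw [Nat.factorization_mul hsa htb, Nat.factorization_mul (pow_ne_zero 2 hs) ha0,
    Nat.factorization_mul (pow_ne_zero 2 ht) hb0, Nat.factorization_mul hr0 hr0, Nat.factorization_pow,
    Nat.factorization_pow] at h1
  simp only [Finsupp.add_apply, Finsupp.smul_apply, smul_eq_mul] at h1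
  have h2 := (Nat.squarefree_iff_factorization_le_one ha0).1 ha p
  have h3 := (Nat.squarefree_iff_factorization_le_one hb0).1 hb p
  omega

/-- Proof: for `x i > 0` write `x i = s i ^ 2 * q i` with `q i` squarefree (`Nat.sq_mul_squarefree`).  Let `Q` be the
set of the `q i` (`x i > 0`).  Choosing one `i` for each element of `Q` gives a generic set with `Q.card` elements
(for squarefree `q ≠ q'` the product `q * q'` is not a square), so `Q.card ≤ K`.  With
`C q = ∑ i, [q i = q] ± s i` (an integer) we have `ssum ε x = ∑ q ∈ Q, C q √q = ∑ q ∈ Q, ± √((C q).natAbs ^ 2 * q)`, a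
signed sum over the subtype `Q`.  `root_sep_sum` gives `1 ≤ |ssum ε x| * V ^ (2 ^ Q.card - 1)` with
`V = ∑ q ∈ Q, |C q| √q ≤ ∑ i, √(x i) =: U`, and `U ≥ 1`, so `V ^ (2 ^ Q.card - 1) ≤ U ^ (2 ^ K - 1)`. -/
theorem root_sep_classes {ι : Type} [Fintype ι] (ε : ι → Bool) (x : ι → ℕ) (K : ℕ)
    (hK : ∀ I : Finset ι, Gen I x → I.card ≤ K) (h : ssum ε x ≠ 0) :
    1 ≤ |ssum ε x| * (∑ i, Real.sqrt (x i)) ^ (2 ^ K - 1) := by
  classical
  choose q s hs hq using fun i => Nat.sq_mul_squarefree (x i)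
  set P : Finset ι := univ.filter (fun i => 0 < x i) with hP
  set Q : Finset ℕ := P.image q with hQ
  have hs0 : ∀ i ∈ P, s i ≠ 0 := by
    intro i hi h0
    have h1 : 0 < x i := (mem_filter.1 hi).2
    rw [← hs i, h0] at h1
    simp at h1
  -- the number of classes
  have hcard : Q.card ≤ K := by
    have hex : ∀ c : {c // c ∈ Q}, ∃ i, i ∈ P ∧ q i = c := by
      rintro ⟨c, hc⟩
      obtain ⟨i, hi, rfl⟩ := mem_image.1 hc
      exact ⟨i, hi, rfl⟩
    choose g hgP hgq using hex
    have hginj : Function.Injective g := by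
      intro c c' hcc
      apply Subtype.ext
      rw [← hgq c, ← hgq c', hcc]
    have h1 := hK (univ.image g) (by
      refine ⟨?_, ?_⟩
      · intro i hi
        obtain ⟨c, -, rfl⟩ := mem_image.1 hi
        exact (mem_filter.1 (hgP c)).2
      · intro i hi j hj hij hsq
        obtain ⟨c, -, rfl⟩ := mem_image.1 hi
        obtain ⟨c', -, rfl⟩ := mem_image.1 hj
        obtain ⟨r, hr⟩ := hsq
        apply hij
        rw [← hs (g c), ← hs (g c')] at hr
        have h2 := sc_eq_of_square (hs0 _ (hgP c)) (hs0 _ (hgP c')) (hq (g c)) (hq (g c')) hr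
        rw [hgq, hgq] at h2
        rw [Subtype.ext h2])
    rw [card_image_of_injective _ hginj, card_univ, Fintype.card_coe] at h1
    exact h1
  -- the coefficients
  set sz : Bool → ℤ := fun b => if b then 1 else -1 with hsz
  have hsgz : ∀ b, sg b = ((sz b : ℤ) : ℝ) := by
    intro b; cases b <;> simp [sg, sz]
  have habs : ∀ b, |sz b| = 1 := by
    intro b; cases b <;> simp [sz]
  set C : ℕ → ℤ := fun c => ∑ i ∈ P.filter (fun i => q i = c), sz (ε i) * (s i : ℤ) with hC
  have hsqrt : ∀ i, Real.sqrt (x i) = (s i : ℝ) * Real.sqrt (q i) := by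
    intro i
    rw [← hs i]
    push_cast
    rw [Real.sqrt_mul (by positivity), Real.sqrt_sq (by positivity)]
  have hsum : ∀ f : ι → ℝ, (∀ i, i ∉ P → f i = 0) → ∑ i, f i = ∑ c ∈ Q, ∑ i ∈ P.filter (fun i => q i = c), f i := by
    intro f hf
    rw [← Finset.sum_subset (Finset.subset_univ P) (fun i _ hi => hf i hi)]
    exact (Finset.sum_fiberwise_of_maps_to (fun i hi => mem_image_of_mem q hi) f).symm
  have hxP : ∀ i, i ∉ P → Real.sqrt (x i) = 0 := by
    intro i hi
    have : x i = 0 := by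
      by_contra h0
      exact hi (mem_filter.2 ⟨mem_univ _, Nat.pos_of_ne_zero h0⟩)
    rw [this]; simp
  have hss : ssum ε x = ∑ c ∈ Q, ((C c : ℤ) : ℝ) * Real.sqrt c := by
    unfold ssum
    rw [hsum _ (fun i hi => by rw [hxP i hi, mul_zero])]
    apply sum_congr rfl
    intro c _
    rw [hC]
    push_cast
    rw [sum_mul]
    apply sum_congr rfl
    intro i hi
    rw [hsqrt i, hsgz, (mem_filter.1 hi).2]
    ring
  set y : {c // c ∈ Q} → ℕ := fun c => (C c).natAbs ^ 2 * (c : ℕ) with hy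
  set δ : {c // c ∈ Q} → Bool := fun c => decide (0 ≤ C c) with hδ
  have hysq : ∀ c : {c // c ∈ Q}, Real.sqrt (y c) = |((C c : ℤ) : ℝ)| * Real.sqrt (c : ℕ) := by
    intro c
    rw [hy]
    push_cast
    rw [Real.sqrt_mul (by positivity), Real.sqrt_sq (by positivity), Nat.cast_natAbs, Int.cast_abs]
  have hss2 : ssum δ y = ssum ε x := by
    rw [hss]
    unfold ssum
    rw [← Finset.sum_coe_sort Q (fun c => ((C c : ℤ) : ℝ) * Real.sqrt c)]
    apply sum_congr rfl
    intro c _
    rw [hysq c, ← mul_assoc]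
    congr 1
    by_cases h0 : 0 ≤ C c
    · have h1 : (0 : ℝ) ≤ ((C c : ℤ) : ℝ) := by exact_mod_cast h0
      simp [sg, hδ, h0, abs_of_nonneg h1]
    · have h1 : ((C c : ℤ) : ℝ) ≤ 0 := by
        have : C c ≤ 0 := le_of_lt (not_le.1 h0)
        exact_mod_cast this
      simp [sg, hδ, h0, abs_of_nonpos h1]
  have hV : ∑ c, Real.sqrt (y c) ≤ ∑ i, Real.sqrt (x i) := by
    rw [hsum _ hxP, ← Finset.sum_coe_sort Q (fun c => ∑ i ∈ P.filter (fun i => q i = c), Real.sqrt (x i))]
    apply sum_le_sum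
    intro c _
    rw [hysq c, hC]
    push_cast
    have h1 : |∑ i ∈ P.filter (fun i => q i = (c : ℕ)), ((sz (ε i) : ℤ) : ℝ) * (s i : ℝ)|
        ≤ ∑ i ∈ P.filter (fun i => q i = (c : ℕ)), (s i : ℝ) := by
      refine (abs_sum_le_sum_abs _ _).trans (le_of_eq (sum_congr rfl ?_))
      intro i _
      rw [abs_mul]
      have h2 : |((sz (ε i) : ℤ) : ℝ)| = 1 := by
        rw [← Int.cast_abs, habs]; simp
      rw [h2, one_mul, abs_of_nonneg (by positivity)]
    refine (mul_le_mul_of_nonneg_right h1 (Real.sqrt_nonneg _)).trans (le_of_eq ?_)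
    rw [sum_mul]
    apply sum_congr rfl
    intro i hi
    rw [hsqrt i, (mem_filter.1 hi).2]
  have hV0 : 0 ≤ ∑ c, Real.sqrt (y c) := sum_nonneg (fun _ _ => Real.sqrt_nonneg _)
  have hU1 : 1 ≤ ∑ i, Real.sqrt (x i) := by
    have hne : ∃ i, 0 < x i := by
      by_contra hcon
      push Not at hcon
      apply h
      unfold ssum
      apply sum_eq_zero
      intro i _
      have : x i = 0 := Nat.le_zero.1 (hcon i)
      rw [this]; simp
    obtain ⟨i, hi⟩ := hne
    have h1 : (1 : ℝ) ≤ Real.sqrt (x i) := by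
      rw [Real.one_le_sqrt]
      exact_mod_cast hi
    exact h1.trans (single_le_sum (f := fun i => Real.sqrt (x i)) (fun _ _ => Real.sqrt_nonneg _) (mem_univ i))
  have hmain := root_sep_sum δ y (by rw [hss2]; exact h)
  rw [hss2, Fintype.card_coe] at hmain
  refine hmain.trans (mul_le_mul_of_nonneg_left ?_ (abs_nonneg _))
  refine (pow_le_pow_left₀ hV0 hV _).trans (pow_le_pow_right₀ hU1 ?_)
  exact Nat.sub_le_sub_right (Nat.pow_le_pow_right (by norm_num) hcard) 1

end Pool.Agent.H14SR
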