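import Mathlib
import Pool.Agent.Lib.H14SR.SepC
import Pool.Agent.Lib.H14SR.AvgF

/-! # H14SR : exceptional perturbations are rare -/

namespace Pool.Agent.H14SR

open Finset

theorem excg_term (c : ℤ) (x : ℕ) :
    sg (decide (0 < c)) * Real.sqrt ((c.natAbs ^ 2 * x : ℕ) : ℝ) = (c : ℝ) * Real.sqrt x := by
  have h1 : Real.sqrt ((c.natAbs ^ 2 * x : ℕ) : ℝ) = |(c : ℝ)| * Real.sqrt x := by
    have h2 : ((c.natAbs ^ 2 * x : ℕ) : ℝ) = |(c : ℝ)| ^ 2 * (x : ℝ) := by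
      have h3 : ((c.natAbs : ℕ) : ℝ) = |(c : ℝ)| := by
        rw [Nat.cast_natAbs, Int.cast_abs]
      push_cast
      rw [h3]
    rw [h2, Real.sqrt_mul (by positivity), Real.sqrt_sq (abs_nonneg _)]
  rw [h1]
  rcases lt_trichotomy c 0 with h | h | h
  · have h4 : (c : ℝ) < 0 := by exact_mod_cast h
    have h5 : decide (0 < c) = false := by
      rw [decide_eq_false_iff_not]; omega
    rw [h5, abs_of_neg h4]
    simp [sg]
  · subst h
    simp
  · have h4 : (0 : ℝ) < c := by exact_mod_cast h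
    have h5 : decide (0 < c) = true := by
      rw [decide_eq_true_eq]; exact h
    rw [h5, abs_of_pos h4]
    simp [sg]

theorem excg_ssum {ι : Type} [Fintype ι] (c : ι → ℤ) (x : ι → ℕ) :
    ssum (fun i => decide (0 < c i)) (fun i => (c i).natAbs ^ 2 * x i)
      = ∑ i, (c i : ℝ) * Real.sqrt (x i) := by
  unfold ssum
  exact Finset.sum_congr rfl fun i _ => excg_term (c i) (x i)

theorem excg_natAbs {c : ℤ} {C : ℕ} (h : |c| ≤ (C : ℤ)) : c.natAbs ≤ C := by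
  rw [Int.abs_eq_natAbs] at h
  exact_mod_cast h

/-- If the sum is not zero then `C ≥ 1`, `A ≥ 1` and the index type is nonempty. -/
theorem excg_pos {ι : Type} [Fintype ι] (c : ι → ℤ) (C A : ℕ) (x : ι → ℕ)
    (hc : ∀ i, |c i| ≤ C) (hA : ∀ i, x i ≤ A)
    (h : ∑ i, (c i : ℝ) * Real.sqrt (x i) ≠ 0) :
    1 ≤ C ∧ 1 ≤ A ∧ 1 ≤ Fintype.card ι := by
  obtain ⟨i, -, hi⟩ := Finset.exists_ne_zero_of_sum_ne_zero h
  have h1 : c i ≠ 0 := by
    intro h0; apply hi; rw [h0]; simp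
  have h2 : x i ≠ 0 := by
    intro h0; apply hi; rw [h0]; simp
  refine ⟨?_, ?_, Fintype.card_pos_iff.2 ⟨i⟩⟩
  · have h3 := hc i
    have h4 : 0 < |c i| := abs_pos.2 h1
    omega
  · have h3 := hA i
    omega

theorem excg_sep {ι : Type} [Fintype ι] (c : ι → ℤ) (m C A : ℕ) (hm : 1 ≤ m)
    (x : ι → ℕ) (hc : ∀ i, |c i| ≤ C) (hA : ∀ i, x i ≤ A)
    (h : ∑ i, (c i : ℝ) * Real.sqrt (x i) ≠ 0)
    (hno : ∀ I : Finset ι, (∀ i ∈ I, c i ≠ 0) → Gen I x → I.card < 2 * m) :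
    dl (Fintype.card ι) C A m ≤ |∑ i, (c i : ℝ) * Real.sqrt (x i)| := by
  obtain ⟨hC1, hA1, hn1⟩ := excg_pos c C A x hc hA h
  have hK : ∀ I : Finset ι, Gen I (fun i => (c i).natAbs ^ 2 * x i) → I.card ≤ 2 * m - 1 := by
    intro I hI
    have h1 : ∀ i ∈ I, c i ≠ 0 := by
      intro i hi h0
      have h2 := hI.1 i hi
      simp only at h2
      rw [h0] at h2
      simp at h2
    have h2 : Gen I x := by
      refine ⟨fun i hi => ?_, fun i hi j hj hij hsq => ?_⟩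
      · have h3 := hI.1 i hi
        simp only at h3
        exact Nat.pos_of_mul_pos_left h3
      · apply hI.2 i hi j hj hij
        obtain ⟨s, hs⟩ := hsq
        refine ⟨(c i).natAbs * (c j).natAbs * s, ?_⟩
        have e : (c i).natAbs ^ 2 * x i * ((c j).natAbs ^ 2 * x j)
            = (c i).natAbs ^ 2 * (c j).natAbs ^ 2 * (x i * x j) := by ring
        simp only
        rw [e, hs]
        ring
    have h3 := hno I h1 h2
    omega
  have key := root_sep_classes (fun i => decide (0 < c i)) (fun i => (c i).natAbs ^ 2 * x i) (2 * m - 1) hK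
    (by rw [excg_ssum]; exact h)
  rw [excg_ssum] at key
  set S : ℝ := |∑ i, (c i : ℝ) * Real.sqrt (x i)| with hS
  set W : ℝ := 2 * (Fintype.card ι : ℝ) * C * Real.sqrt A with hW
  have hsA : 1 ≤ Real.sqrt (A : ℝ) := by
    rw [Real.one_le_sqrt]
    exact_mod_cast hA1
  have hCr : (1 : ℝ) ≤ C := by exact_mod_cast hC1
  have hnr : (1 : ℝ) ≤ Fintype.card ι := by exact_mod_cast hn1
  have hnC : (1 : ℝ) ≤ (Fintype.card ι : ℝ) * C := one_le_mul_of_one_le_of_one_le hnr hCr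
  have hV1 : (1 : ℝ) ≤ (Fintype.card ι : ℝ) * C * Real.sqrt A :=
    one_le_mul_of_one_le_of_one_le hnC hsA
  have hW1 : 1 ≤ W := by rw [hW]; nlinarith
  have hU0 : (0 : ℝ) ≤ ∑ i, Real.sqrt (((c i).natAbs ^ 2 * x i : ℕ) : ℝ) :=
    Finset.sum_nonneg fun i _ => Real.sqrt_nonneg _
  have hU : ∑ i, Real.sqrt (((c i).natAbs ^ 2 * x i : ℕ) : ℝ) ≤ W := by
    have h1 : ∀ i ∈ (Finset.univ : Finset ι), Real.sqrt (((c i).natAbs ^ 2 * x i : ℕ) : ℝ)
        ≤ (C : ℝ) * Real.sqrt A := by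
      intro i _
      have h2 : (((c i).natAbs ^ 2 * x i : ℕ) : ℝ) ≤ (C : ℝ) ^ 2 * A := by
        have h3 : (c i).natAbs ≤ C := excg_natAbs (hc i)
        have h4 : (c i).natAbs ^ 2 * x i ≤ C ^ 2 * A :=
          Nat.mul_le_mul (Nat.pow_le_pow_left h3 2) (hA i)
        exact_mod_cast h4
      calc _ ≤ Real.sqrt ((C : ℝ) ^ 2 * A) := Real.sqrt_le_sqrt h2
        _ = (C : ℝ) * Real.sqrt A := by
            rw [Real.sqrt_mul (by positivity), Real.sqrt_sq (by positivity)]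
    have h5 := Finset.sum_le_sum h1
    rw [Finset.sum_const, Finset.card_univ, nsmul_eq_mul] at h5
    refine h5.trans ?_
    rw [hW]
    nlinarith
  have hpow : (∑ i, Real.sqrt (((c i).natAbs ^ 2 * x i : ℕ) : ℝ)) ^ (2 ^ (2 * m - 1) - 1) ≤ W ^ (4 ^ m) := by
    have h1 : (∑ i, Real.sqrt (((c i).natAbs ^ 2 * x i : ℕ) : ℝ)) ^ (2 ^ (2 * m - 1) - 1)
        ≤ W ^ (2 ^ (2 * m - 1) - 1) := pow_le_pow_left₀ hU0 hU _
    refine h1.trans (pow_le_pow_right₀ hW1 ?_)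
    have h2 : (4 : ℕ) ^ m = 2 ^ (2 * m) := by
      rw [pow_mul]; norm_num
    rw [h2]
    exact (Nat.sub_le _ _).trans (Nat.pow_le_pow_right (by norm_num) (by omega))
  have hS0 : 0 ≤ S := abs_nonneg _
  have hfin : 1 ≤ S * W ^ (4 ^ m) := key.trans (mul_le_mul_of_nonneg_left hpow hS0)
  have hWp : 0 < W ^ (4 ^ m) := by positivity
  unfold dl
  rw [← hW, div_le_iff₀ (by positivity)]
  nlinarith

theorem excg_empty {ι : Type} [Fintype ι] (c : ι → ℤ) (m C A : ℕ) (hm : Fintype.card ι < 2 * m)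
    (x : ι → ℕ) (hc : ∀ i, |c i| ≤ C) (hA : ∀ i, x i ≤ A)
    (h : ∑ i, (c i : ℝ) * Real.sqrt (x i) ≠ 0) :
    dl (Fintype.card ι) C A m ≤ |∑ i, (c i : ℝ) * Real.sqrt (x i)| :=
  excg_sep c m C A (by omega) x hc hA h fun I _ _ => lt_of_le_of_lt (Finset.card_le_univ I) hm

open Classical in
theorem excg_count {ι : Type} [Fintype ι] (c : ι → ℤ) (m C A H : ℕ) (hm : 1 ≤ m)
    (f : ι → Fin H → ℕ) (hf : ∀ i, Function.Injective (f i)) (hc : ∀ i, |c i| ≤ C)
    (hA : ∀ i h, f i h ≤ A) :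
    2 ^ m * ((Finset.univ : Finset (ι → Fin H)).filter
        (fun r => ∑ i, (c i : ℝ) * Real.sqrt (val f r i) ≠ 0 ∧
          |∑ i, (c i : ℝ) * Real.sqrt (val f r i)| < dl (Fintype.card ι) C A m)).card
      ≤ Fintype.card ι ^ m * H ^ (Fintype.card ι - m) := by
  have hcC : ∀ i, (c i).natAbs ≤ C := fun i => excg_natAbs (hc i)
  have h1 := near_count_f ((Finset.univ : Finset ι).filter (fun i => c i ≠ 0)) m (C ^ 2 * A) H hm
    (fun i => decide (0 < c i)) (fun i => (c i).natAbs) f 0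
    (fun i hi => Int.natAbs_pos.2 (Finset.mem_filter.1 hi).2) hf
    (fun i _ h => Nat.mul_le_mul (Nat.pow_le_pow_left (hcC i) 2) (hA i h))
  have h2 : ((Finset.univ : Finset ι).filter (fun i => c i ≠ 0)).card ≤ Fintype.card ι :=
    Finset.card_le_univ _
  refine le_trans (Nat.mul_le_mul_left _ (Finset.card_le_card ?_))
    (h1.trans (Nat.mul_le_mul_right _ (Nat.pow_le_pow_left h2 m)))
  intro r hr
  rw [Finset.mem_filter] at hr ⊢
  obtain ⟨-, hS, hlt⟩ := hr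
  obtain ⟨hC1, hA1, hn1⟩ := excg_pos c C A (val f r) hc (fun i => hA i (r i)) hS
  have hex : ∃ I ⊆ (Finset.univ : Finset ι).filter (fun i => c i ≠ 0), I.card = 2 * m ∧ Gen I (val f r) := by
    by_contra hcon
    push Not at hcon
    have h3 := excg_sep c m C A hm (val f r) hc (fun i => hA i (r i)) hS (fun I hI hG => by
      by_contra hlt'
      push Not at hlt'
      obtain ⟨I', hI', hcard⟩ := Finset.exists_subset_card_eq hlt'
      refine hcon I' (fun i hi => Finset.mem_filter.2 ⟨Finset.mem_univ _, hI i (hI' hi)⟩) hcard ?_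
      exact ⟨fun i hi => hG.1 i (hI' hi), fun i hi j hj hij => hG.2 i (hI' hi) j (hI' hj) hij⟩)
    exact absurd hlt (not_lt.2 h3)
  obtain ⟨I, hIJ, hIc, hG⟩ := hex
  refine ⟨Finset.mem_univ _, ⟨I, hIJ, hIc, hG⟩, ?_⟩
  have hmn : 2 * m ≤ Fintype.card ι := by
    rw [← hIc]
    exact Finset.card_le_univ I
  rw [zero_add, excg_ssum c (val f r)]
  refine lt_of_lt_of_le hlt ?_
  unfold dl delta
  have hsq : Real.sqrt ((C ^ 2 * A : ℕ) : ℝ) = (C : ℝ) * Real.sqrt A := by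
    push_cast
    rw [Real.sqrt_mul (by positivity), Real.sqrt_sq (by positivity)]
  rw [hsq]
  have hsA : 0 < Real.sqrt (A : ℝ) := Real.sqrt_pos.2 (by exact_mod_cast hA1)
  have hCr : (0 : ℝ) < C := by exact_mod_cast hC1
  have hmr : (0 : ℝ) < m := by exact_mod_cast hm
  have hmn' : (m : ℝ) ≤ Fintype.card ι := by
    have : m ≤ Fintype.card ι := by omega
    exact_mod_cast this
  have hb0 : 0 < 2 * (m : ℝ) * ((C : ℝ) * Real.sqrt A) := by positivity
  have hb : 2 * (m : ℝ) * ((C : ℝ) * Real.sqrt A) ≤ 2 * (Fintype.card ι : ℝ) * C * Real.sqrt A := by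
    have : 2 * (m : ℝ) * ((C : ℝ) * Real.sqrt A) = 2 * (m : ℝ) * C * Real.sqrt A := by ring
    rw [this]
    gcongr
  apply one_div_le_one_div_of_le (by positivity)
  gcongr

end Pool.Agent.H14SR
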