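import Mathlib
import Pool.Agent.Lib.H14SR.ExcG

/-! # H14SR chunk ExcF (arbitrary H-element sets) : exceptional perturbations are rare -/

namespace Pool.Agent.H14SR

open Finset

open Classical in
/-- Proof: put `n = card ι`, `J` = the support of `c`, `ε i = (0 < c i)`, `d i = (c i).natAbs`, so
`∑ c i √(x i) = ssum ε (fun i => d i ^ 2 * x i)` (`x = val f r`).  Let `r` be in the set.  If no `I ⊆ J` with `2 m`
elements is generic for `x`, then generic sets for `fun i => d i ^ 2 * x i` (they lie in `J` and are generic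
for `x`) have at most `2 m - 1` elements and `root_sep_classes` with `K = 2 m - 1` gives `1 ≤ |S| * U ^ (2 ^ (2 m - 1) - 1)`,
`U = ∑ |c i| √(x i) ≤ n C √A`, so `|S| ≥ (2 n C √A) ^ (-(4 ^ m)) ≥ dl n C A m` (`2 n C √A ≥ 1`), a contradiction.  So `r` is in the
set of `near_count_f` with `t = 0` and `A` replaced by `C ^ 2 * A`: here `m ≤ 2 m ≤ J.card ≤ n`, so
`dl n C A m ≤ delta m (C ^ 2 * A)`.  Finally `J.card ≤ n`. -/
theorem exc_count_f {ι : Type} [Fintype ι] (c : ι → ℤ) (m C A H : ℕ) (hm : 1 ≤ m)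
    (f : ι → Fin H → ℕ) (hf : ∀ i, Function.Injective (f i)) (hc : ∀ i, |c i| ≤ C)
    (hA : ∀ i h, f i h ≤ A) :
    2 ^ m * ((Finset.univ : Finset (ι → Fin H)).filter
        (fun r => ∑ i, (c i : ℝ) * Real.sqrt (val f r i) ≠ 0 ∧
          |∑ i, (c i : ℝ) * Real.sqrt (val f r i)| < dl (Fintype.card ι) C A m)).card
      ≤ Fintype.card ι ^ m * H ^ (Fintype.card ι - m) :=
  excg_count c m C A H hm f hf hc hA

/-- If `card ι < 2 m` there are no exceptional perturbations at all (same argument: generic sets have at most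
`card ι ≤ 2 m - 1` elements). -/
theorem exc_empty {ι : Type} [Fintype ι] (c : ι → ℤ) (m C A : ℕ) (hm : Fintype.card ι < 2 * m)
    (x : ι → ℕ) (hc : ∀ i, |c i| ≤ C) (hA : ∀ i, x i ≤ A)
    (h : ∑ i, (c i : ℝ) * Real.sqrt (x i) ≠ 0) :
    dl (Fintype.card ι) C A m ≤ |∑ i, (c i : ℝ) * Real.sqrt (x i)| :=
  excg_empty c m C A hm x hc hA h

end Pool.Agent.H14SR
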