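import Mathlib
import Pool.Agent.Lib.H14SR.Cls
import Pool.Agent.Lib.H14SR.Fib

/-! # H14SR chunk Few : few square classes are rare -/

namespace Pool.Agent.H14SR

open Finset

private theorem few_arith (m H n j K : ℕ) (hj : j < m) (hn : 3 * m ≤ n)
    (hK : m * K ≤ H) :
    H ^ (n - (3 * m - j)) * (m * K) ^ (3 * m - j) ≤ H ^ (n - 2 * m) * (m * K) ^ (2 * m) := by
  have e1 : 3 * m - j = 2 * m + (m - j) := by omega
  have e2 : n - 2 * m = (n - (3 * m - j)) + (m - j) := by omega
  have h1 : (m * K) ^ (m - j) ≤ H ^ (m - j) := Nat.pow_le_pow_left hK _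
  calc H ^ (n - (3 * m - j)) * (m * K) ^ (3 * m - j)
      = H ^ (n - (3 * m - j)) * (m * K) ^ (2 * m) * (m * K) ^ (m - j) := by
        conv_lhs => rw [show (m * K) ^ (3 * m - j) = (m * K) ^ (2 * m) * (m * K) ^ (m - j) by
          rw [← pow_add, ← e1]]
        rw [mul_assoc]
    _ ≤ H ^ (n - (3 * m - j)) * (m * K) ^ (2 * m) * H ^ (m - j) := Nat.mul_le_mul_left _ h1
    _ = H ^ (n - 2 * m) * (m * K) ^ (2 * m) := by
        rw [e2, pow_add]; ring

private theorem few_arith2 (m H n : ℕ) (hH : 0 < H) (hn : 3 * m ≤ n) :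
    2 ^ (3 * m) * (H ^ (n - 2 * m) * (m * (Nat.sqrt (H - 1) + 1)) ^ (2 * m))
      ≤ (32 * m ^ 2) ^ m * H ^ (n - m) := by
  have hK : (Nat.sqrt (H - 1) + 1) ^ 2 ≤ 4 * H := by
    have h1 : Nat.sqrt (H - 1) ^ 2 ≤ H - 1 := Nat.sqrt_le' _
    have h2 : Nat.sqrt (H - 1) ≤ Nat.sqrt (H - 1) ^ 2 := by
      rw [pow_two]; exact Nat.le_mul_self _
    have h3 : (Nat.sqrt (H - 1) + 1) ^ 2 = Nat.sqrt (H - 1) ^ 2 + 2 * Nat.sqrt (H - 1) + 1 := by
      ring
    omega
  have e : n - m = (n - 2 * m) + m := by omega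
  have h4 : (m * (Nat.sqrt (H - 1) + 1)) ^ (2 * m) ≤ (m ^ 2 * (4 * H)) ^ m := by
    rw [pow_mul, mul_pow]
    exact Nat.pow_le_pow_left (Nat.mul_le_mul_left _ hK) _
  calc 2 ^ (3 * m) * (H ^ (n - 2 * m) * (m * (Nat.sqrt (H - 1) + 1)) ^ (2 * m))
      ≤ 2 ^ (3 * m) * (H ^ (n - 2 * m) * (m ^ 2 * (4 * H)) ^ m) :=
        Nat.mul_le_mul_left _ (Nat.mul_le_mul_left _ h4)
    _ = (32 * m ^ 2) ^ m * H ^ (n - m) := by
        rw [e, pow_add H, pow_mul]
        have h5 : (32 * m ^ 2) ^ m = (2 ^ 3) ^ m * (m ^ 2 * 4) ^ m := by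
          rw [← mul_pow]; congr 1; ring
        have h6 : (m ^ 2 * (4 * H)) ^ m = (m ^ 2 * 4) ^ m * H ^ m := by
          rw [← mul_pow]; congr 1; ring
        rw [h5, h6]
        ring

private theorem few_gen_sub {ι : Type} {I J : Finset ι} {x : ι → ℕ} (h : Gen J x) (hs : I ⊆ J) :
    Gen I x :=
  ⟨fun i hi => h.1 i (hs hi), fun i hi j hj hij => h.2 i (hs hi) j (hs hj) hij⟩

open Classical in
private theorem few_max {ι : Type} (T : Finset ι) (m : ℕ) (x : ι → ℕ)
    (h : ¬ ∃ I ⊆ T, I.card = m ∧ Gen I x) :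
    ∃ J ∈ T.powerset.filter (fun J => J.card < m), Gen J x ∧
      ∀ i ∈ T \ J, x i = 0 ∨ ∃ j ∈ J, IsSquare (x i * x j) := by
  have hne : (T.powerset.filter (fun J => Gen J x)).Nonempty := by
    refine ⟨∅, ?_⟩
    rw [Finset.mem_filter, Finset.mem_powerset]
    exact ⟨Finset.empty_subset _, by simp [Gen]⟩
  obtain ⟨J, hJ, hmax⟩ := Finset.exists_max_image _ (fun J : Finset ι => J.card) hne
  rw [Finset.mem_filter, Finset.mem_powerset] at hJ
  have hJm : J.card < m := by
    by_contra hc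
    rw [not_lt] at hc
    obtain ⟨I, hI, hIm⟩ := Finset.exists_subset_card_eq hc
    exact h ⟨I, hI.trans hJ.1, hIm, few_gen_sub hJ.2 hI⟩
  refine ⟨J, ?_, hJ.2, ?_⟩
  · rw [Finset.mem_filter, Finset.mem_powerset]
    exact ⟨hJ.1, hJm⟩
  intro i hi
  rw [Finset.mem_sdiff] at hi
  by_contra hc
  rw [not_or] at hc
  obtain ⟨h0, h1⟩ := hc
  have h1' : ∀ j ∈ J, ¬ IsSquare (x i * x j) := fun j hj hsq => h1 ⟨j, hj, hsq⟩
  have hG : Gen (insert i J) x := by
    constructor
    · intro k hk
      rw [Finset.mem_insert] at hk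
      rcases hk with rfl | hk
      · exact Nat.pos_of_ne_zero h0
      · exact hJ.2.1 k hk
    · intro k hk l hl hkl
      rw [Finset.mem_insert] at hk hl
      rcases hk with hk | hk
      · rcases hl with hl | hl
        · exact absurd (hk.trans hl.symm) hkl
        · rw [hk]; exact h1' l hl
      · rcases hl with hl | hl
        · rw [hl, mul_comm]; exact h1' k hk
        · exact hJ.2.2 k hk l hl hkl
  have h2 := hmax (insert i J) (by
    rw [Finset.mem_filter, Finset.mem_powerset]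
    exact ⟨Finset.insert_subset hi.1 hJ.1, hG⟩)
  rw [Finset.card_insert_of_notMem hi.2] at h2
  omega

open Classical in
private theorem few_fix {ι : Type} [Fintype ι] (T : Finset ι) (m H : ℕ)
    (hT : T.card = 3 * m) (hK : m * (Nat.sqrt (H - 1) + 1) ≤ H) (a : ι → ℕ) (J : Finset ι)
    (hJT : J ⊆ T) (hJm : J.card < m) :
    ((Finset.univ : Finset (ι → Fin H)).filter
        (fun r => Gen J (shift a r) ∧ ∀ i ∈ T \ J, shift a r i = 0 ∨
          ∃ j ∈ J, IsSquare (shift a r i * shift a r j))).card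
      ≤ H ^ (Fintype.card ι - 2 * m) * (m * (Nat.sqrt (H - 1) + 1)) ^ (2 * m) := by
  set K := Nat.sqrt (H - 1) + 1 with hKdef
  have hn : 3 * m ≤ Fintype.card ι := by
    rw [← hT]; exact Finset.card_le_univ T
  have hU : (T \ J).card = 3 * m - J.card := by
    rw [Finset.card_sdiff_of_subset hJT, hT]
  have key := card_le_of_choices
    ((Finset.univ : Finset (ι → Fin H)).filter
        (fun r => Gen J (shift a r) ∧ ∀ i ∈ T \ J, shift a r i = 0 ∨
          ∃ j ∈ J, IsSquare (shift a r i * shift a r j))) (T \ J) (m * K)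
    (fun f i => (Finset.univ : Finset (Fin H)).filter
        (fun r : Fin H => a i + (r : ℕ) = 0 ∨
          ∃ j ∈ J, IsSquare ((a i + (r : ℕ)) * shift a f j)))
    (by
      intro f hf i _
      rw [Finset.mem_filter] at hf
      have h1 := few_choices J (shift a f) (a i) H (fun j hj => hf.2.1.1 j hj)
      refine h1.trans ?_
      have h2 : J.card * K ≤ (m - 1) * K := Nat.mul_le_mul_right _ (by omega)
      have hK1 : 1 ≤ K := by rw [hKdef]; exact Nat.le_add_left 1 _
      have h3 : K + (m - 1) * K = m * K := by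
        obtain ⟨c, rfl⟩ : ∃ c, m = c + 1 := ⟨m - 1, by omega⟩
        rw [Nat.add_sub_cancel]
        ring
      calc 1 + J.card * K ≤ K + (m - 1) * K := Nat.add_le_add hK1 h2
        _ = m * K := h3)
    (by
      intro f _ f' hf' hff i hi
      rw [Finset.mem_filter] at hf'
      rw [Finset.mem_filter]
      refine ⟨Finset.mem_univ _, ?_⟩
      rcases hf'.2.2 i hi with h | ⟨j, hj, hsq⟩
      · left; exact h
      · right
        refine ⟨j, hj, ?_⟩
        have h4 : shift a f' j = shift a f j := by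
          have h5 : f' j = f j := hff j (by
            rw [Finset.mem_sdiff]; tauto)
          unfold shift
          rw [h5]
        rw [← h4]
        exact hsq)
  rw [hU, Fintype.card_fin] at key
  exact key.trans (few_arith m H (Fintype.card ι) J.card K hJm hn hK)

open Classical in
/-- Proof: put `K = Nat.sqrt (H - 1) + 1`.  Let `r` have no generic `I ⊆ T` with `m` elements and let
`J ⊆ T` be generic with the largest possible number of elements.  Subsets of generic sets are generic, so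
`J.card < m`.  By maximality every `i ∈ T \ J` has `x i = 0` or `IsSquare (x i * x j)` for some `j ∈ J`
(`x = shift a r`).  For a fixed `J` with `J.card < m` the number of such `r` is at most
`H ^ (n - (3 m - J.card)) * (m K) ^ (3 m - J.card)` by `card_le_of_choices` (`U = T \ J`, `G f i` the set of
`few_choices` with `x = shift a f`, at most `1 + (m-1) K ≤ m K` elements; it depends only on `f` on `J`), and
this is at most `H ^ (n - 2 m) * (m K) ^ (2 m)` because `m K ≤ H`.  There are at most `2 ^ (3 m)` sets `J`.  Finally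
`K ^ 2 ≤ 4 H`, so the total is at most `8 ^ m * H ^ (n - 2 m) * m ^ (2 m) * (4 H) ^ m`. -/
theorem few_classes {ι : Type} [Fintype ι] (T : Finset ι) (m H : ℕ) (hm : 1 ≤ m) (hH : 0 < H)
    (hT : T.card = 3 * m) (hK : m * (Nat.sqrt (H - 1) + 1) ≤ H) (a : ι → ℕ) :
    ((Finset.univ : Finset (ι → Fin H)).filter
        (fun r => ¬ ∃ I ⊆ T, I.card = m ∧ Gen I (shift a r))).card
      ≤ (32 * m ^ 2) ^ m * H ^ (Fintype.card ι - m) := by
  have hn : 3 * m ≤ Fintype.card ι := by
    rw [← hT]; exact Finset.card_le_univ T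
  refine le_trans ?_ (few_arith2 m H (Fintype.card ι) hH hn)
  have hsub : ((Finset.univ : Finset (ι → Fin H)).filter
        (fun r => ¬ ∃ I ⊆ T, I.card = m ∧ Gen I (shift a r))) ⊆
      (T.powerset.filter (fun J => J.card < m)).biUnion (fun J =>
        (Finset.univ : Finset (ι → Fin H)).filter
          (fun r => Gen J (shift a r) ∧ ∀ i ∈ T \ J, shift a r i = 0 ∨
            ∃ j ∈ J, IsSquare (shift a r i * shift a r j))) := by
    intro r hr
    rw [Finset.mem_filter] at hr
    obtain ⟨J, hJ, h1, h2⟩ := few_max T m (shift a r) hr.2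
    rw [Finset.mem_biUnion]
    exact ⟨J, hJ, Finset.mem_filter.2 ⟨Finset.mem_univ _, h1, h2⟩⟩
  refine (Finset.card_le_card hsub).trans ?_
  refine (Finset.card_biUnion_le_card_mul _ _
    (H ^ (Fintype.card ι - 2 * m) * (m * (Nat.sqrt (H - 1) + 1)) ^ (2 * m)) ?_).trans ?_
  · intro J hJ
    rw [Finset.mem_filter, Finset.mem_powerset] at hJ
    exact few_fix T m H hT hK a J hJ.1 hJ.2
  · refine Nat.mul_le_mul_right _ ?_
    refine (Finset.card_filter_le _ _).trans ?_
    rw [Finset.card_powerset, hT]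

end Pool.Agent.H14SR
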