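import Mathlib
import Pool.Agent.Lib.H14SR.Defs

/-! # H14SR chunk Layer4 : layering with base 4 -/

namespace Pool.Agent.H14SR

open Finset

private lemma layer4_geom (M : ℕ) : ∑ m ∈ Icc 1 M, ((1 : ℝ) / 2) ^ m ≤ 1 := by
  have h : ∀ M : ℕ, ∑ m ∈ Icc 1 M, ((1 : ℝ) / 2) ^ m = 1 - (1 / 2) ^ M := by
    intro M
    induction M with
    | zero => simp
    | succ n ih =>
      rw [Finset.sum_Icc_succ_top (by omega), ih, pow_succ]
      ring
  rw [h M]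
  have h2 : (0 : ℝ) ≤ (1 / 2) ^ M := by positivity
  linarith

private lemma layer4_pt {Ω : Type} [Fintype Ω] [DecidableEq Ω] (p : Ω → ℝ) (E : ℕ → Finset Ω) (M q : ℕ) (B : ℝ)
    (hB : 0 ≤ B) (hp : ∀ w, 0 ≤ p w)
    (hp' : ∀ m ≤ M, ∀ w, (m = 0 ∨ w ∈ E m) → w ∉ E (m + 1) → p w ≤ B * 4 ^ m)
    (hM : E (M + 1) = ∅) (w : Ω) :
    p w ^ q ≤ B ^ q * (1 + ∑ m ∈ Icc 1 M, if w ∈ E m then (4 : ℝ) ^ (m * q) else 0) := by
  classical
  have hterm : ∀ m ∈ Icc 1 M, (0 : ℝ) ≤ if w ∈ E m then (4 : ℝ) ^ (m * q) else 0 := by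
    intro m _
    split_ifs
    · positivity
    · exact le_rfl
  have hBq : 0 ≤ B ^ q := pow_nonneg hB q
  have h0 : (0 = 0 ∨ w ∈ E 0) := Or.inl rfl
  set P : ℕ → Prop := fun m => m = 0 ∨ w ∈ E m with hP
  set m := Nat.findGreatest P M with hm
  have hmM : m ≤ M := Nat.findGreatest_le M
  have hPm : P m := Nat.findGreatest_spec (P := P) (Nat.zero_le M) h0
  have hnext : w ∉ E (m + 1) := by
    by_cases h : m = M
    · rw [h, hM]
      exact Finset.notMem_empty w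
    · intro hw
      have h1 : m + 1 ≤ M := by omega
      have h2 : m + 1 ≤ m := Nat.le_findGreatest h1 (Or.inr hw)
      omega
  have h1 : p w ≤ B * 4 ^ m := hp' m hmM w hPm hnext
  have h2 : p w ^ q ≤ (B * 4 ^ m) ^ q := pow_le_pow_left₀ (hp w) h1 q
  have h3 : (B * (4 : ℝ) ^ m) ^ q = B ^ q * 4 ^ (m * q) := by
    rw [mul_pow, ← pow_mul]
  rw [h3] at h2
  refine h2.trans (mul_le_mul_of_nonneg_left ?_ hBq)
  rcases Nat.eq_zero_or_pos m with hz | hpos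
  · rw [hz, Nat.zero_mul, pow_zero]
    have := Finset.sum_nonneg hterm
    linarith
  · have hw : w ∈ E m := by
      rcases hPm with h | h
      · omega
      · exact h
    have hmem : m ∈ Icc 1 M := Finset.mem_Icc.mpr ⟨hpos, hmM⟩
    have := Finset.single_le_sum hterm hmem
    rw [if_pos hw] at this
    linarith

/-- Proof: pointwise `p w ^ q ≤ B ^ q * (1 + ∑ m ∈ Icc 1 M, 4 ^ (m q) * [w ∈ E m])`: let `m` be the largest number
`≤ M` with `m = 0 ∨ w ∈ E m`, then `w ∉ E (m + 1)` (for `m = M` because `E (M + 1) = ∅`) and `hp'` applies.  Sum over `w`: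
`∑ m, 4 ^ (m q) * (1/2) ^ m * (1/4) ^ (q m) = ∑ m, (1/2) ^ m ≤ 1`. -/
theorem layer4 {Ω : Type} [Fintype Ω] [DecidableEq Ω] (p : Ω → ℝ) (E : ℕ → Finset Ω) (M q : ℕ) (B : ℝ)
    (hB : 0 ≤ B) (hp : ∀ w, 0 ≤ p w)
    (hp' : ∀ m ≤ M, ∀ w, (m = 0 ∨ w ∈ E m) → w ∉ E (m + 1) → p w ≤ B * 4 ^ m)
    (hM : E (M + 1) = ∅)
    (hE : ∀ m, 1 ≤ m → m ≤ M →
      ((E m).card : ℝ) ≤ (1 / 2) ^ m * (1 / 4) ^ (q * m) * Fintype.card Ω) :
    ∑ w, p w ^ q ≤ 2 * B ^ q * Fintype.card Ω := by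
  have hBq : 0 ≤ B ^ q := pow_nonneg hB q
  have hc : (0 : ℝ) ≤ Fintype.card Ω := Nat.cast_nonneg _
  have h1 : ∑ w, p w ^ q ≤
      ∑ w : Ω, B ^ q * (1 + ∑ m ∈ Icc 1 M, if w ∈ E m then (4 : ℝ) ^ (m * q) else 0) :=
    Finset.sum_le_sum fun w _ => layer4_pt p E M q B hB hp hp' hM w
  have h2 : ∑ w : Ω, B ^ q * (1 + ∑ m ∈ Icc 1 M, if w ∈ E m then (4 : ℝ) ^ (m * q) else 0) =
      B ^ q * ((Fintype.card Ω : ℝ) + ∑ m ∈ Icc 1 M, (4 : ℝ) ^ (m * q) * (E m).card) := by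
    rw [← Finset.mul_sum, Finset.sum_add_distrib, Finset.sum_comm]
    congr 1
    congr 1
    · simp
    · refine Finset.sum_congr rfl fun m _ => ?_
      rw [← Finset.sum_filter, Finset.sum_const, nsmul_eq_mul, mul_comm]
      congr 2
      congr 1
      ext w
      simp
  have h3 : ∑ m ∈ Icc 1 M, (4 : ℝ) ^ (m * q) * (E m).card ≤
      ∑ m ∈ Icc 1 M, (1 / 2) ^ m * (Fintype.card Ω : ℝ) := by
    refine Finset.sum_le_sum fun m hm => ?_
    rw [Finset.mem_Icc] at hm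
    have h8 : (0 : ℝ) ≤ 4 ^ (m * q) := by positivity
    calc (4 : ℝ) ^ (m * q) * (E m).card
        ≤ 4 ^ (m * q) * ((1 / 2) ^ m * (1 / 4) ^ (q * m) * Fintype.card Ω) :=
          mul_le_mul_of_nonneg_left (hE m hm.1 hm.2) h8
      _ = (1 / 2) ^ m * (Fintype.card Ω : ℝ) := by
          have e : (4 : ℝ) ^ (m * q) * (1 / 4 : ℝ) ^ (q * m) = 1 := by
            rw [mul_comm q m, ← mul_pow]
            norm_num
          calc (4 : ℝ) ^ (m * q) * ((1 / 2) ^ m * (1 / 4 : ℝ) ^ (q * m) * (Fintype.card Ω : ℝ))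
              = (4 : ℝ) ^ (m * q) * (1 / 4 : ℝ) ^ (q * m) * ((1 / 2) ^ m * (Fintype.card Ω : ℝ)) := by
                ring
            _ = _ := by rw [e, one_mul]
  have h4 : ∑ m ∈ Icc 1 M, (1 / 2) ^ m * (Fintype.card Ω : ℝ) ≤ 1 * (Fintype.card Ω : ℝ) := by
    rw [← Finset.sum_mul]
    exact mul_le_mul_of_nonneg_right (layer4_geom M) hc
  rw [h2] at h1
  refine h1.trans ?_
  have h5 : (Fintype.card Ω : ℝ) + ∑ m ∈ Icc 1 M, (4 : ℝ) ^ (m * q) * (E m).card ≤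
      2 * (Fintype.card Ω : ℝ) := by
    linarith
  calc B ^ q * ((Fintype.card Ω : ℝ) + ∑ m ∈ Icc 1 M, (4 : ℝ) ^ (m * q) * (E m).card)
      ≤ B ^ q * (2 * (Fintype.card Ω : ℝ)) := mul_le_mul_of_nonneg_left h5 hBq
    _ = 2 * B ^ q * Fintype.card Ω := by ring

end Pool.Agent.H14SR
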