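import Mathlib
import Pool.Agent.Lib.H14SR.Val
import Pool.Agent.Lib.H14SR.Ans

/-! # H14SR chunk MomA4 : pointwise bound for the number of bits -/

namespace Pool.Agent.H14SR

open Finset

/-- Put `n = k + l ≥ 1`, `Λ = logb 2 (2 n √A) ≥ 2` (`A ≥ 4 n`), `S` the difference.  If `S = 0` or
`|S| ≥ dl n 1 A (m + 1) = 2 ^ (-(1 + 4 ^ (m + 1) Λ))`, then `prec_le` with `y = 1 + logb 2 (2 n) + 4 ^ (m + 1) Λ` gives
`prec a b ≤ 2 + logb 2 (2 n) + 4 ^ (m + 1) Λ ≤ 1 + Λ + 4 ^ (m + 1) Λ ≤ 2 * 4 ^ (m + 1) Λ = 8 Λ 4 ^ m`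
(`logb 2 (2 n) = Λ - logb 2 √A ≤ Λ - 1`). -/
theorem prec_le_of_dl {k l : ℕ} (a : Fin k → ℕ) (b : Fin l → ℕ) (m A : ℕ) (hn : 1 ≤ k + l)
    (hA : 4 * (k + l) ≤ A)
    (h : ∑ i, Real.sqrt (a i) = ∑ j, Real.sqrt (b j) ∨
      dl (k + l) 1 A (m + 1) ≤ |∑ i, Real.sqrt (a i) - ∑ j, Real.sqrt (b j)|) :
    (prec a b : ℝ) ≤ 8 * Real.logb 2 (2 * ((k : ℝ) + l) * Real.sqrt A) * 4 ^ m := by
  have hn1 : (1 : ℝ) ≤ (k : ℝ) + l := by exact_mod_cast hn
  have hAr : 4 * ((k : ℝ) + l) ≤ (A : ℝ) := by exact_mod_cast hA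
  set n : ℝ := (k : ℝ) + l with hndef
  have hs2 : 2 ≤ Real.sqrt A := by
    apply Real.le_sqrt_of_sq_le
    nlinarith
  set X : ℝ := 2 * n * Real.sqrt A with hX
  set Λ : ℝ := Real.logb 2 X with hΛ
  have hX4 : 4 ≤ X := by rw [hX]; nlinarith
  have hX0 : 0 < X := by linarith
  have hlog0 : 0 ≤ Real.logb 2 (2 * n) := Real.logb_nonneg one_lt_two (by linarith)
  have hΛ2 : 2 ≤ Λ := by
    rw [hΛ, Real.le_logb_iff_rpow_le one_lt_two hX0]
    norm_num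
    exact hX4
  have hlog : 1 + Real.logb 2 (2 * n) ≤ Λ := by
    rw [hΛ, Real.le_logb_iff_rpow_le one_lt_two hX0, Real.rpow_add two_pos,
      Real.rpow_logb two_pos (by norm_num) (by linarith), Real.rpow_one, hX]
    nlinarith
  have h4m : (1 : ℝ) ≤ 4 ^ m := one_le_pow₀ (by norm_num)
  have h4m1 : (4 : ℝ) ≤ 4 ^ (m + 1) := by rw [pow_succ]; linarith
  have hmul : 4 * Λ ≤ 4 ^ (m + 1) * Λ := mul_le_mul_of_nonneg_right h4m1 (by linarith)
  have hp := prec_le a b (1 + Real.logb 2 (2 * n) + 4 ^ (m + 1) * Λ) (by linarith) (by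
    rcases h with h | h
    · exact Or.inl h
    · refine Or.inr ?_
      have e1 : (2 : ℝ) ^ (1 + Real.logb 2 (2 * n) + 4 ^ (m + 1) * Λ)
          = 2 * (2 * n) * X ^ (4 ^ (m + 1)) := by
        rw [Real.rpow_add two_pos, Real.rpow_add two_pos, Real.rpow_one,
          Real.rpow_logb two_pos (by norm_num) (by linarith), mul_comm ((4 : ℝ) ^ (m + 1)) Λ,
          Real.rpow_mul two_pos.le, hΛ, Real.rpow_logb two_pos (by norm_num) hX0,
          ← Real.rpow_natCast X (4 ^ (m + 1))]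
        push_cast
        rfl
      rw [e1]
      have hYp : 0 < X ^ (4 ^ (m + 1)) := by positivity
      have hd : dl (k + l) 1 A (m + 1) = 1 / (2 * X ^ (4 ^ (m + 1))) := by
        unfold dl
        push_cast
        rw [mul_one]
      have hd2 : 2 * X ^ (4 ^ (m + 1)) * dl (k + l) 1 A (m + 1) = 1 := by
        rw [hd]
        field_simp
      have hX2 : 0 ≤ 2 * X ^ (4 ^ (m + 1)) := by positivity
      have hfin : 1 ≤ 2 * X ^ (4 ^ (m + 1)) * |∑ i, Real.sqrt (a i) - ∑ j, Real.sqrt (b j)| :=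
        le_trans hd2.ge (mul_le_mul_of_nonneg_left h hX2)
      nlinarith)
  refine hp.trans ?_
  have h6 : (4 : ℝ) ^ (m + 1) * Λ = 4 * (4 ^ m * Λ) := by rw [pow_succ]; ring
  nlinarith

end Pool.Agent.H14SR
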