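import Mathlib
import Pool.Agent.Lib.H14SR.Mom4A
import Pool.Agent.Lib.H14SR.ExcF
import Pool.Agent.Lib.H14SR.Layer4

/-! # H14SR chunk Mom4F (arbitrary H-element sets) : moments of the number of bits -/

namespace Pool.Agent.H14SR

open Finset

private theorem mom4_sum {k l H : ℕ} (f : Fin k → Fin H → ℕ) (g : Fin l → Fin H → ℕ)
    (w : (Fin k → Fin H) × (Fin l → Fin H)) :
    ∑ i, ((Sum.elim (fun _ : Fin k => (1 : ℤ)) (fun _ : Fin l => (-1 : ℤ)) i : ℤ) : ℝ) *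
        Real.sqrt (val (Sum.elim f g) (Sum.elim w.1 w.2) i) =
      ∑ i, Real.sqrt (f i (w.1 i)) - ∑ j, Real.sqrt (g j (w.2 j)) := by
  rw [Fintype.sum_sum_type, sub_eq_add_neg, ← Finset.sum_neg_distrib]
  simp [val]

private theorem mom4_num (q m n H N : ℕ) (hmn : m ≤ n) (hH : 4 ^ q * n ≤ H)
    (hN : 2 ^ m * N ≤ n ^ m * H ^ (n - m)) :
    (N : ℝ) ≤ (1 / 2) ^ m * (1 / 4) ^ (q * m) * (H : ℝ) ^ n := by
  have hH' : (4 : ℝ) ^ q * (n : ℝ) ≤ H := by exact_mod_cast hH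
  have hN' : (2 : ℝ) ^ m * (N : ℝ) ≤ (n : ℝ) ^ m * (H : ℝ) ^ (n - m) := by exact_mod_cast hN
  have h1 : ((4 : ℝ) ^ q * (n : ℝ)) ^ m ≤ (H : ℝ) ^ m := pow_le_pow_left₀ (by positivity) hH' m
  rw [mul_pow, ← pow_mul] at h1
  have h7 : (H : ℝ) ^ n = (H : ℝ) ^ m * (H : ℝ) ^ (n - m) := by
    rw [← pow_add]
    congr 1
    omega
  have h4 : ((1 : ℝ) / 4) ^ (q * m) * (4 : ℝ) ^ (q * m) = 1 := by
    rw [← mul_pow]
    norm_num
  have h2 : ((1 : ℝ) / 2) ^ m * (2 : ℝ) ^ m = 1 := by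
    rw [← mul_pow]
    norm_num
  have h3 : (n : ℝ) ^ m ≤ (1 / 4) ^ (q * m) * (H : ℝ) ^ m := by
    calc (n : ℝ) ^ m = (1 / 4) ^ (q * m) * ((4 : ℝ) ^ (q * m) * (n : ℝ) ^ m) := by
          rw [← mul_assoc, h4, one_mul]
      _ ≤ _ := mul_le_mul_of_nonneg_left h1 (by positivity)
  calc (N : ℝ) = (1 / 2) ^ m * ((2 : ℝ) ^ m * (N : ℝ)) := by rw [← mul_assoc, h2, one_mul]
    _ ≤ (1 / 2) ^ m * ((n : ℝ) ^ m * (H : ℝ) ^ (n - m)) :=
        mul_le_mul_of_nonneg_left hN' (by positivity)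
    _ ≤ (1 / 2) ^ m * (((1 / 4) ^ (q * m) * (H : ℝ) ^ m) * (H : ℝ) ^ (n - m)) :=
        mul_le_mul_of_nonneg_left (mul_le_mul_of_nonneg_right h3 (by positivity)) (by positivity)
    _ = (1 / 2) ^ m * (1 / 4) ^ (q * m) * (H : ℝ) ^ n := by rw [h7]; ring

private theorem mom4_card (m k l A H : ℕ) (f : Fin k → Fin H → ℕ) (g : Fin l → Fin H → ℕ)
    (hm : 1 ≤ m) (hf : ∀ i, Function.Injective (f i)) (hg : ∀ j, Function.Injective (g j))
    (hfA : ∀ i h, f i h ≤ A) (hgA : ∀ j h, g j h ≤ A)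
    (E : Finset ((Fin k → Fin H) × (Fin l → Fin H)))
    (hE : ∀ w ∈ E, ∑ i, Real.sqrt (f i (w.1 i)) - ∑ j, Real.sqrt (g j (w.2 j)) ≠ 0 ∧
      |∑ i, Real.sqrt (f i (w.1 i)) - ∑ j, Real.sqrt (g j (w.2 j))| < dl (k + l) 1 A m) :
    2 ^ m * E.card ≤ (k + l) ^ m * H ^ (k + l - m) := by
  classical
  have hcard : Fintype.card (Fin k ⊕ Fin l) = k + l := by simp
  have h := exc_count_f (ι := Fin k ⊕ Fin l)
    (Sum.elim (fun _ : Fin k => (1 : ℤ)) (fun _ : Fin l => (-1 : ℤ))) m 1 A H hm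
    (Sum.elim f g) (by
      intro i
      rcases i with i | j
      · exact hf i
      · exact hg j) (by
      intro i
      rcases i with i | j
      · simp
      · simp) (by
      intro i t
      rcases i with i | j
      · exact hfA i t
      · exact hgA j t)
  have hi : (fun a b : Fin k ⊕ Fin l => Classical.propDecidable (a = b)) =
      (fun a b => instDecidableEqSum a b) := by
    funext a b
    exact Subsingleton.elim _ _
  rw [hcard, hi] at h
  refine le_trans (Nat.mul_le_mul_left _ ?_) h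
  refine Finset.card_le_card_of_injOn (fun w => Sum.elim w.1 w.2) ?_ ?_
  · intro w hw
    have hw' := hE w (by simpa using hw)
    refine Finset.mem_coe.2 (Finset.mem_filter.2 ⟨Finset.mem_univ _, ?_⟩)
    rw [mom4_sum]
    exact hw'
  · intro w _ w' _ hww
    have h1 : ∀ x, Sum.elim w.1 w.2 x = Sum.elim w'.1 w'.2 x := fun x => congrFun hww x
    refine Prod.ext ?_ ?_
    · funext i
      exact h1 (Sum.inl i)
    · funext j
      exact h1 (Sum.inr j)

private theorem mom4_empty (m k l A H : ℕ) (f : Fin k → Fin H → ℕ) (g : Fin l → Fin H → ℕ)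
    (hm : k + l < 2 * m) (hfA : ∀ i h, f i h ≤ A) (hgA : ∀ j h, g j h ≤ A)
    (w : (Fin k → Fin H) × (Fin l → Fin H))
    (h0 : ∑ i, Real.sqrt (f i (w.1 i)) - ∑ j, Real.sqrt (g j (w.2 j)) ≠ 0) :
    dl (k + l) 1 A m ≤ |∑ i, Real.sqrt (f i (w.1 i)) - ∑ j, Real.sqrt (g j (w.2 j))| := by
  have hcard : Fintype.card (Fin k ⊕ Fin l) = k + l := by simp
  have h := exc_empty (ι := Fin k ⊕ Fin l)
    (Sum.elim (fun _ : Fin k => (1 : ℤ)) (fun _ : Fin l => (-1 : ℤ))) m 1 A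
    (by rw [hcard]; exact hm) (val (Sum.elim f g) (Sum.elim w.1 w.2)) (by
      intro i
      rcases i with i | j
      · simp
      · simp) (by
      intro i
      rcases i with i | j
      · exact hfA i _
      · exact hgA j _)
    (by rw [mom4_sum]; exact h0)
  rw [hcard, mom4_sum] at h
  exact h

/-- Proof: `layer4` with `Ω = Fin k ⊕ Fin l → Fin H` (transported to pairs by `Equiv.sumArrowEquivProdArrow`),
`n = k + l`, `M = n`, `B = 8 Λ`, `p` = `prec` of the perturbed instance, `E m` = the set of `exc_count_f` for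
`ι = Fin k ⊕ Fin l`, `f := Sum.elim f g`, `c = 1` on `Fin k` and `-1` on `Fin l`, `C = 1`
(`∑ c i √(x i)` is the difference `S` of the two sums).  `hp'` is `prec_le_of_dl` (`A ≥ H ≥ 4 n`).
`hE`: `2 ^ m * card ≤ n ^ m * H ^ (n - m)`, and `n / H ≤ (1/4) ^ q`; for `m ≤ n` this is the bound of `layer4`.
`hM`: `E (n + 1)` is empty by `exc_empty`. -/
theorem moment_f (q k l H A : ℕ) (f : Fin k → Fin H → ℕ) (g : Fin l → Fin H → ℕ) (hq : 1 ≤ q)
    (hn : 1 ≤ k + l) (hH : 4 ^ q * (k + l) ≤ H) (hHA : H ≤ A)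
    (hf : ∀ i, Function.Injective (f i)) (hg : ∀ j, Function.Injective (g j))
    (hfA : ∀ i h, f i h ≤ A) (hgA : ∀ j h, g j h ≤ A) :
    ∑ r : Fin k → Fin H, ∑ s : Fin l → Fin H,
        (prec (fun i => f i (r i)) (fun j => g j (s j)) : ℝ) ^ q
      ≤ 2 * (8 * Real.logb 2 (2 * ((k : ℝ) + l) * Real.sqrt A)) ^ q * (H : ℝ) ^ (k + l) := by
  classical
  have h4 : 4 * (k + l) ≤ H := by
    refine le_trans (Nat.mul_le_mul_right _ ?_) hH
    have h1 : 4 ^ 1 ≤ 4 ^ q := Nat.pow_le_pow_right (by norm_num) hq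
    omega
  have hA : 4 * (k + l) ≤ A := h4.trans hHA
  have hn1 : (1 : ℝ) ≤ (k : ℝ) + l := by exact_mod_cast hn
  have hA1 : 1 ≤ A := by omega
  have hA1' : (1 : ℝ) ≤ A := by exact_mod_cast hA1
  set Λ : ℝ := Real.logb 2 (2 * ((k : ℝ) + l) * Real.sqrt A) with hΛ
  have hΛ0 : 0 ≤ Λ := by
    refine Real.logb_nonneg (by norm_num) ?_
    have h1 : 1 ≤ Real.sqrt (A : ℝ) := Real.one_le_sqrt.2 hA1'
    nlinarith
  set D : (Fin k → Fin H) × (Fin l → Fin H) → ℝ := fun w =>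
    ∑ i, Real.sqrt (f i (w.1 i)) - ∑ j, Real.sqrt (g j (w.2 j)) with hD
  set E : ℕ → Finset ((Fin k → Fin H) × (Fin l → Fin H)) := fun m =>
    Finset.univ.filter fun w => D w ≠ 0 ∧ |D w| < dl (k + l) 1 A m with hEdef
  set p : (Fin k → Fin H) × (Fin l → Fin H) → ℝ := fun w =>
    (prec (fun i => f i (w.1 i)) (fun j => g j (w.2 j)) : ℝ) with hp
  have h5 : (Fintype.card ((Fin k → Fin H) × (Fin l → Fin H)) : ℝ) = (H : ℝ) ^ (k + l) := by
    rw [Fintype.card_prod, Fintype.card_fun, Fintype.card_fun]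
    simp only [Fintype.card_fin]
    push_cast
    rw [pow_add]
  have hlayer := layer4 p E (k + l) q (8 * Λ) (by positivity) (fun w => Nat.cast_nonneg _)
    (by
      intro m _ w _ hw1
      have hw2 : D w = 0 ∨ dl (k + l) 1 A (m + 1) ≤ |D w| := by
        by_contra hno
        push Not at hno
        exact hw1 (Finset.mem_filter.2 ⟨Finset.mem_univ _, hno.1, hno.2⟩)
      exact prec_le_of_dl (fun i => f i (w.1 i)) (fun j => g j (w.2 j)) m A hn hA (by
        rcases hw2 with h | h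
        · exact Or.inl (sub_eq_zero.1 h)
        · exact Or.inr h))
    (by
      refine Finset.eq_empty_of_forall_notMem fun w hw => ?_
      have hw' := (Finset.mem_filter.1 hw).2
      exact absurd (mom4_empty (k + l + 1) k l A H f g (by omega) hfA hgA w hw'.1)
        (not_le.2 hw'.2))
    (by
      intro m hm hmM
      rw [h5]
      exact mom4_num q m (k + l) H (E m).card hmM hH
        (mom4_card m k l A H f g hm hf hg hfA hgA (E m) (fun w hw => (Finset.mem_filter.1 hw).2)))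
  rw [h5, Fintype.sum_prod_type] at hlayer
  exact hlayer

end Pool.Agent.H14SR
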