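import Mathlib
import Pool.Agent.Lib.H14SR.Defs

/-! # H14SR : the procedure answers for every number of bits above the least one -/

namespace Pool.Agent.H14SR

open Finset

/-- `2 ⌊2^L √x⌋ ≤ ⌊2^(L+1) √x⌋ ≤ 2 ⌊2^L √x⌋ + 1`. -/
theorem mono_sqrt (L x : ℕ) :
    2 * Nat.sqrt (4 ^ L * x) ≤ Nat.sqrt (4 ^ (L + 1) * x) ∧
      Nat.sqrt (4 ^ (L + 1) * x) ≤ 2 * Nat.sqrt (4 ^ L * x) + 1 := by
  have h4 : 4 ^ (L + 1) * x = 4 * (4 ^ L * x) := by rw [pow_succ]; ring
  rw [h4]
  generalize 4 ^ L * x = y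
  have h1 : Nat.sqrt y * Nat.sqrt y ≤ y := Nat.sqrt_le y
  have h2 : y < (Nat.sqrt y + 1) * (Nat.sqrt y + 1) := Nat.lt_succ_sqrt y
  refine ⟨Nat.le_sqrt.2 (by nlinarith), ?_⟩
  refine Nat.lt_succ_iff.1 (Nat.sqrt_lt.2 ?_)
  nlinarith

theorem mono_trunc (L : ℕ) {k : ℕ} (a : Fin k → ℕ) :
    2 * trunc L a ≤ trunc (L + 1) a ∧ trunc (L + 1) a ≤ 2 * trunc L a + k := by
  unfold trunc
  refine ⟨?_, ?_⟩
  · rw [Finset.mul_sum]
    exact Finset.sum_le_sum fun i _ => (mono_sqrt L (a i)).1
  · have h : ∑ i : Fin k, Nat.sqrt (4 ^ (L + 1) * a i) ≤ ∑ i : Fin k, (2 * Nat.sqrt (4 ^ L * a i) + 1) :=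
      Finset.sum_le_sum fun i _ => (mono_sqrt L (a i)).2
    refine h.trans (le_of_eq ?_)
    rw [Finset.sum_add_distrib, ← Finset.mul_sum]
    simp

/-- Once the procedure answers, it gives the same answer for all larger `L`. -/
theorem answer_succ (L : ℕ) {k l : ℕ} (a : Fin k → ℕ) (b : Fin l → ℕ) (v : Bool)
    (h : answer L a b = some v) : answer (L + 1) a b = some v := by
  have ha := mono_trunc L a
  have hb := mono_trunc L b
  unfold answer at h ⊢
  by_cases h1 : EqTest a b
  · rw [if_pos h1] at h ⊢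
    exact h
  · rw [if_neg h1] at h ⊢
    by_cases h2 : trunc L a + k ≤ trunc L b
    · rw [if_pos h2] at h
      rw [if_pos (by omega)]
      exact h
    · rw [if_neg h2] at h
      by_cases h3 : trunc L b + l ≤ trunc L a
      · rw [if_pos h3] at h
        by_cases h4 : trunc (L + 1) a + k ≤ trunc (L + 1) b
        · exfalso
          -- then `k = 0` and `trunc a = 0`, `trunc b = 0`
          have hk : k = 0 := by omega
          omega
        · rw [if_neg h4, if_pos (by omega)]
          exact h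
      · rw [if_neg h3] at h
        exact absurd h (by simp)

theorem answer_mono {L M : ℕ} (hLM : L ≤ M) {k l : ℕ} (a : Fin k → ℕ) (b : Fin l → ℕ) (v : Bool)
    (h : answer L a b = some v) : answer M a b = some v := by
  induction M, hLM using Nat.le_induction with
  | base => exact h
  | succ M _ ih => exact answer_succ M a b v ih

/-- `prec a b` is the least `L` with an answer, and all larger `L` give an answer too. -/
theorem answer_ne_none_iff {k l : ℕ} (a : Fin k → ℕ) (b : Fin l → ℕ) (h : ∃ L, answer L a b ≠ none) (L : ℕ) :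
    answer L a b ≠ none ↔ prec a b ≤ L := by
  refine ⟨fun hL => Nat.sInf_le hL, fun hL => ?_⟩
  have h1 : answer (prec a b) a b ≠ none := Nat.sInf_mem (s := {L | answer L a b ≠ none}) h
  obtain ⟨v, hv⟩ := Option.ne_none_iff_exists'.1 h1
  rw [answer_mono hL a b v hv]
  simp

end Pool.Agent.H14SR
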