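import Mathlib
import Pool.Agent.Lib.H14SR.Few
import Pool.Agent.Lib.H14SR.Many

/-! # H14SR chunk Tail : the tail bound -/

namespace Pool.Agent.H14SR

open Finset

private theorem tail_small (m H n : ℕ) (hn : 3 * m ≤ n) (hH : H < 4 * m ^ 2) :
    H ^ n ≤ 2 * (32 * m ^ 2) ^ m * H ^ (n - m) := by
  have e : n = m + (n - m) := by omega
  have h1 : H ^ m ≤ (32 * m ^ 2) ^ m := Nat.pow_le_pow_left (by omega) _
  calc H ^ n = H ^ m * H ^ (n - m) := by rw [← pow_add, ← e]
    _ ≤ (32 * m ^ 2) ^ m * H ^ (n - m) := Nat.mul_le_mul_right _ h1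
    _ ≤ 2 * (32 * m ^ 2) ^ m * H ^ (n - m) := by
        rw [mul_assoc]
        exact Nat.le_mul_of_pos_left _ (by norm_num)

private theorem tail_lt (m H : ℕ) (h : ¬ m * (Nat.sqrt (H - 1) + 1) ≤ H) :
    H < 4 * m ^ 2 := by
  rw [not_le] at h
  have hK : (Nat.sqrt (H - 1) + 1) ^ 2 ≤ 4 * H ∨ H = 0 := by
    rcases Nat.eq_zero_or_pos H with h0 | h0
    · right; exact h0
    left
    have h1 : Nat.sqrt (H - 1) ^ 2 ≤ H - 1 := Nat.sqrt_le' _
    have h2 : Nat.sqrt (H - 1) ≤ Nat.sqrt (H - 1) ^ 2 := by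
      rw [pow_two]; exact Nat.le_mul_self _
    have h3 : (Nat.sqrt (H - 1) + 1) ^ 2 = Nat.sqrt (H - 1) ^ 2 + 2 * Nat.sqrt (H - 1) + 1 := by
      ring
    omega
  rcases hK with hK | hK
  · have h4 : H ^ 2 < (m * (Nat.sqrt (H - 1) + 1)) ^ 2 := Nat.pow_lt_pow_left h (by norm_num)
    rw [mul_pow] at h4
    have h5 : m ^ 2 * (Nat.sqrt (H - 1) + 1) ^ 2 ≤ m ^ 2 * (4 * H) := Nat.mul_le_mul_left _ hK
    have h6 : H * H < (4 * m ^ 2) * H := by
      calc H * H = H ^ 2 := by ring
        _ < m ^ 2 * (4 * H) := lt_of_lt_of_le h4 h5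
        _ = (4 * m ^ 2) * H := by ring
    exact Nat.lt_of_mul_lt_mul_right h6
  · rw [hK]
    have hm : 0 < m := by
      rcases Nat.eq_zero_or_pos m with h0 | h0
      · rw [h0, zero_mul] at h
        exact absurd h (by omega)
      · exact h0
    positivity

private theorem tail_fact (m : ℕ) (hm : 1 ≤ m) :
    2 ^ (3 * m) * m.factorial ≤ (32 * m ^ 2) ^ m := by
  have h1 : m.factorial ≤ m ^ m := Nat.factorial_le_pow m
  calc 2 ^ (3 * m) * m.factorial ≤ 2 ^ (3 * m) * m ^ m := Nat.mul_le_mul_left _ h1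
    _ = (8 * m) ^ m := by
        rw [pow_mul, ← mul_pow]; norm_num
    _ ≤ (32 * m ^ 2) ^ m := by
        refine Nat.pow_le_pow_left ?_ _
        have h2 : m * 1 ≤ m * m := Nat.mul_le_mul_left _ hm
        rw [pow_two]
        omega

open Classical in
/-- Version with positive integer coefficients on `T`.
Proof: `H = 0` is trivial (no functions).  Let `K = Nat.sqrt (H - 1) + 1`.  If `m * K ≤ H`: the set is contained in
the set of `few_classes` and the union over `I ⊆ T`, `I.card = m` (`T.powersetCard m`, at most `2 ^ (3 m) = 8 ^ m` sets)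
of the sets of `many_classes_c`, and `8 ^ m * m! ≤ (8 m) ^ m ≤ (32 m ^ 2) ^ m`.  If `m * K > H`: `K ^ 2 ≤ 4 H` gives
`H ^ 2 < m ^ 2 * 4 H`, so `H < 4 m ^ 2 ≤ 32 m ^ 2` and the right side is at least `H ^ m * H ^ (n - m) = H ^ n`, the number of
all `r` (`m ≤ 3 m ≤ n`). -/
theorem tail_c {ι : Type} [Fintype ι] (T : Finset ι) (m A H : ℕ) (hm : 1 ≤ m)
    (hT : T.card = 3 * m) (ε : ι → Bool) (c a : ι → ℕ) (t : ℝ) (hc : ∀ i ∈ T, 0 < c i)
    (hA : ∀ i ∈ T, c i ^ 2 * (a i + H) ≤ A) :
    ((Finset.univ : Finset (ι → Fin H)).filter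
        (fun r => |t + ssum ε (fun i => c i ^ 2 * shift a r i)| < delta m A)).card
      ≤ 2 * (32 * m ^ 2) ^ m * H ^ (Fintype.card ι - m) := by
  have hn : 3 * m ≤ Fintype.card ι := by
    rw [← hT]; exact Finset.card_le_univ T
  by_cases hK : m * (Nat.sqrt (H - 1) + 1) ≤ H
  · have hH : 0 < H := by
      refine lt_of_lt_of_le ?_ hK
      exact Nat.mul_pos hm (Nat.succ_pos _)
    have hsub : ((Finset.univ : Finset (ι → Fin H)).filter
        (fun r => |t + ssum ε (fun i => c i ^ 2 * shift a r i)| < delta m A)) ⊆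
        ((Finset.univ : Finset (ι → Fin H)).filter
          (fun r => ¬ ∃ I ⊆ T, I.card = m ∧ Gen I (shift a r))) ∪
        (T.powersetCard m).biUnion (fun I => (Finset.univ : Finset (ι → Fin H)).filter
          (fun r => Gen I (shift a r) ∧
            |t + ssum ε (fun i => c i ^ 2 * shift a r i)| < delta m A)) := by
      intro r hr
      rw [Finset.mem_filter] at hr
      rw [Finset.mem_union]
      by_cases hI : ∃ I ⊆ T, I.card = m ∧ Gen I (shift a r)
      · right
        obtain ⟨I, hIT, hIm, hG⟩ := hI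
        rw [Finset.mem_biUnion]
        refine ⟨I, Finset.mem_powersetCard.2 ⟨hIT, hIm⟩, ?_⟩
        rw [Finset.mem_filter]
        exact ⟨Finset.mem_univ _, hG, hr.2⟩
      · left
        rw [Finset.mem_filter]
        exact ⟨Finset.mem_univ _, hI⟩
    have h1 := few_classes T m H hm hH hT hK a
    have h2 : ((T.powersetCard m).biUnion (fun I => (Finset.univ : Finset (ι → Fin H)).filter
          (fun r => Gen I (shift a r) ∧
            |t + ssum ε (fun i => c i ^ 2 * shift a r i)| < delta m A))).card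
        ≤ (32 * m ^ 2) ^ m * H ^ (Fintype.card ι - m) := by
      refine (Finset.card_biUnion_le_card_mul _ _
        (H ^ (Fintype.card ι - m) * m.factorial) ?_).trans ?_
      · intro I hI
        rw [Finset.mem_powersetCard] at hI
        exact many_classes_c I m A H hm hI.2 ε c a t (fun i hi => hc i (hI.1 hi))
          (fun i hi => hA i (hI.1 hi))
      · have h3 : (T.powersetCard m).card ≤ 2 ^ (3 * m) := by
          rw [← hT, ← Finset.card_powerset]
          refine Finset.card_le_card ?_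
          intro I hI
          rw [Finset.mem_powersetCard] at hI
          exact Finset.mem_powerset.2 hI.1
        calc (T.powersetCard m).card * (H ^ (Fintype.card ι - m) * m.factorial)
            ≤ 2 ^ (3 * m) * (H ^ (Fintype.card ι - m) * m.factorial) :=
              Nat.mul_le_mul_right _ h3
          _ = (2 ^ (3 * m) * m.factorial) * H ^ (Fintype.card ι - m) := by ring
          _ ≤ (32 * m ^ 2) ^ m * H ^ (Fintype.card ι - m) :=
              Nat.mul_le_mul_right _ (tail_fact m hm)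
    calc _ ≤ _ := Finset.card_le_card hsub
      _ ≤ _ := Finset.card_union_le _ _
      _ ≤ (32 * m ^ 2) ^ m * H ^ (Fintype.card ι - m)
          + (32 * m ^ 2) ^ m * H ^ (Fintype.card ι - m) := Nat.add_le_add h1 h2
      _ = 2 * (32 * m ^ 2) ^ m * H ^ (Fintype.card ι - m) := by ring
  · refine le_trans ?_ (tail_small m H (Fintype.card ι) hn (tail_lt m H hK))
    refine (Finset.card_filter_le _ _).trans ?_
    rw [Finset.card_univ, Fintype.card_fun, Fintype.card_fin]

open Classical in
/-- `tail_c` with `c = 1`. -/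
theorem tail {ι : Type} [Fintype ι] (T : Finset ι) (m A H : ℕ) (hm : 1 ≤ m)
    (hT : T.card = 3 * m) (ε : ι → Bool) (a : ι → ℕ) (t : ℝ) (hA : ∀ i ∈ T, a i + H ≤ A) :
    ((Finset.univ : Finset (ι → Fin H)).filter
        (fun r => |t + ssum ε (shift a r)| < delta m A)).card
      ≤ 2 * (32 * m ^ 2) ^ m * H ^ (Fintype.card ι - m) := by
  have h := tail_c T m A H hm hT ε (fun _ => 1) a t (fun _ _ => Nat.one_pos)
    (fun i hi => by rw [one_pow, one_mul]; exact hA i hi)
  refine le_trans (le_of_eq ?_) h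
  congr 1
  ext r
  rw [Finset.mem_filter, Finset.mem_filter]
  have h4 : (fun i => 1 ^ 2 * shift a r i) = shift a r := by
    funext i
    rw [one_pow, one_mul]
  rw [h4]

end Pool.Agent.H14SR
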