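import Mathlib
import Pool.Agent.Lib.H14SR.Tail

/-! # H14SR chunk TailInt : the semi-random tail bound with integer coefficients -/

namespace Pool.Agent.H14SR

open Finset

theorem tailint_term (c : ℤ) (hc : c ≠ 0) (x : ℕ) :
    sg (decide (0 < c)) * Real.sqrt ((c.natAbs ^ 2 * x : ℕ) : ℝ) = (c : ℝ) * Real.sqrt x := by
  have h1 : Real.sqrt ((c.natAbs ^ 2 * x : ℕ) : ℝ) = |(c : ℝ)| * Real.sqrt x := by
    have h2 : ((c.natAbs ^ 2 * x : ℕ) : ℝ) = |(c : ℝ)| ^ 2 * (x : ℝ) := by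
      have h3 : ((c.natAbs : ℕ) : ℝ) = |(c : ℝ)| := by
        rw [Nat.cast_natAbs, Int.cast_abs]
      push_cast
      rw [h3]
    rw [h2, Real.sqrt_mul (by positivity), Real.sqrt_sq (abs_nonneg _)]
  rw [h1]
  rcases lt_or_gt_of_ne hc with h | h
  · have h4 : (c : ℝ) < 0 := by exact_mod_cast h
    have h5 : decide (0 < c) = false := by
      rw [decide_eq_false_iff_not]; omega
    rw [h5, abs_of_neg h4]
    simp [sg]
  · have h4 : (0 : ℝ) < c := by exact_mod_cast h
    have h5 : decide (0 < c) = true := by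
      rw [decide_eq_true_eq]; exact h
    rw [h5, abs_of_pos h4]
    simp [sg]

/-- The semi-random tail bound. -/
theorem tail_int (m A H : ℕ) (hm : 1 ≤ m) (c : Fin (3 * m) → ℤ) (a : Fin (3 * m) → ℕ) (t : ℝ)
    (hc : ∀ i, c i ≠ 0) (hA : ∀ i, (c i) ^ 2 * ((a i : ℤ) + H) ≤ A) :
    Nat.card {r : Fin (3 * m) → Fin H //
        |t + ∑ i, (c i : ℝ) * Real.sqrt ((a i + (r i : ℕ) : ℕ) : ℝ)|
          < 1 / (2 * (2 * (m : ℝ) * Real.sqrt A) ^ (4 ^ m))}
      ≤ 2 * (32 * m ^ 2) ^ m * H ^ (2 * m) := by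
  classical
  have h := tail_c (ι := Fin (3 * m)) Finset.univ m A H hm (by simp) (fun i => decide (0 < c i))
    (fun i => (c i).natAbs) a t (fun i _ => Int.natAbs_pos.mpr (hc i)) (fun i _ => by
      have h1 := hA i
      have h2 : (((c i).natAbs ^ 2 * (a i + H) : ℕ) : ℤ) ≤ (A : ℤ) := by
        push_cast
        rw [sq_abs]
        exact h1
      exact_mod_cast h2)
  have h3 : Fintype.card (Fin (3 * m)) - m = 2 * m := by
    rw [Fintype.card_fin]; omega
  rw [h3] at h
  rw [Nat.card_eq_fintype_card, Fintype.card_subtype]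
  refine le_trans (le_of_eq ?_) h
  congr 1
  ext r
  rw [Finset.mem_filter, Finset.mem_filter]
  have h4 : ssum (fun i => decide (0 < c i)) (fun i => (c i).natAbs ^ 2 * shift a r i)
      = ∑ i, (c i : ℝ) * Real.sqrt ((a i + (r i : ℕ) : ℕ) : ℝ) := by
    unfold ssum shift
    exact Finset.sum_congr rfl fun i _ => tailint_term (c i) (hc i) _
  rw [h4]
  simp only [Finset.mem_univ, true_and]
  rfl

end Pool.Agent.H14SR
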