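import Mathlib
import Pool.Agent.Lib.H14SR.ExcF

/-! # H14SR chunk Unif4F (arbitrary H-element sets) : all coefficient vectors at once -/

namespace Pool.Agent.H14SR

open Finset

open Classical in
/-- For all but few perturbations ALL sums with integer coefficients `|c i| ≤ C` are zero or large.
Proof: union of the sets of `exc_count_f` over the at most `(2 C + 1) ^ n` vectors `c`
(`Fintype.piFinset` of `Finset.Icc (-C) C`). -/
theorem uniform_f {ι : Type} [Fintype ι] (m C A H : ℕ) (hm : 1 ≤ m) (f : ι → Fin H → ℕ)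
    (hf : ∀ i, Function.Injective (f i)) (hA : ∀ i h, f i h ≤ A) :
    2 ^ m * ((Finset.univ : Finset (ι → Fin H)).filter (fun r => ∃ c : ι → ℤ, (∀ i, |c i| ≤ C) ∧
        ∑ i, (c i : ℝ) * Real.sqrt (val f r i) ≠ 0 ∧
        |∑ i, (c i : ℝ) * Real.sqrt (val f r i)| < dl (Fintype.card ι) C A m)).card
      ≤ (2 * C + 1) ^ Fintype.card ι * (Fintype.card ι ^ m * H ^ (Fintype.card ι - m)) := by
  have hsub : ((Finset.univ : Finset (ι → Fin H)).filter (fun r => ∃ c : ι → ℤ, (∀ i, |c i| ≤ C) ∧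
        ∑ i, (c i : ℝ) * Real.sqrt (val f r i) ≠ 0 ∧
        |∑ i, (c i : ℝ) * Real.sqrt (val f r i)| < dl (Fintype.card ι) C A m))
      ⊆ (Fintype.piFinset (fun _ : ι => Finset.Icc (-(C : ℤ)) C)).biUnion
        (fun c => (Finset.univ : Finset (ι → Fin H)).filter (fun r =>
          ∑ i, (c i : ℝ) * Real.sqrt (val f r i) ≠ 0 ∧
          |∑ i, (c i : ℝ) * Real.sqrt (val f r i)| < dl (Fintype.card ι) C A m)) := by
    intro r hr
    simp only [Finset.mem_filter, Finset.mem_univ, true_and] at hr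
    obtain ⟨c, hc, h⟩ := hr
    rw [Finset.mem_biUnion]
    refine ⟨c, ?_, ?_⟩
    · rw [Fintype.mem_piFinset]
      intro i
      rw [Finset.mem_Icc]
      exact abs_le.mp (hc i)
    · simp only [Finset.mem_filter, Finset.mem_univ, true_and]
      exact h
  have hcard : (Fintype.piFinset (fun _ : ι => Finset.Icc (-(C : ℤ)) C)).card
      = (2 * C + 1) ^ Fintype.card ι := by
    rw [Fintype.card_piFinset]
    simp only [Int.card_Icc, Finset.prod_const, Finset.card_univ]
    congr 1
    omega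
  calc 2 ^ m * ((Finset.univ : Finset (ι → Fin H)).filter (fun r => ∃ c : ι → ℤ,
        (∀ i, |c i| ≤ C) ∧
        ∑ i, (c i : ℝ) * Real.sqrt (val f r i) ≠ 0 ∧
        |∑ i, (c i : ℝ) * Real.sqrt (val f r i)| < dl (Fintype.card ι) C A m)).card
      ≤ 2 ^ m * ∑ c ∈ Fintype.piFinset (fun _ : ι => Finset.Icc (-(C : ℤ)) C),
          ((Finset.univ : Finset (ι → Fin H)).filter (fun r =>
            ∑ i, (c i : ℝ) * Real.sqrt (val f r i) ≠ 0 ∧
            |∑ i, (c i : ℝ) * Real.sqrt (val f r i)| < dl (Fintype.card ι) C A m)).card :=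
        Nat.mul_le_mul_left _ ((Finset.card_le_card hsub).trans Finset.card_biUnion_le)
    _ = ∑ c ∈ Fintype.piFinset (fun _ : ι => Finset.Icc (-(C : ℤ)) C),
          2 ^ m * ((Finset.univ : Finset (ι → Fin H)).filter (fun r =>
            ∑ i, (c i : ℝ) * Real.sqrt (val f r i) ≠ 0 ∧
            |∑ i, (c i : ℝ) * Real.sqrt (val f r i)| < dl (Fintype.card ι) C A m)).card := by
        rw [Finset.mul_sum]
    _ ≤ ∑ _c ∈ Fintype.piFinset (fun _ : ι => Finset.Icc (-(C : ℤ)) C),
          Fintype.card ι ^ m * H ^ (Fintype.card ι - m) := by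
        apply Finset.sum_le_sum
        intro c hc
        rw [Fintype.mem_piFinset] at hc
        exact exc_count_f c m C A H hm f hf (fun i => abs_le.mpr (Finset.mem_Icc.mp (hc i))) hA
    _ = (2 * C + 1) ^ Fintype.card ι * (Fintype.card ι ^ m * H ^ (Fintype.card ι - m)) := by
        rw [Finset.sum_const, hcard, smul_eq_mul]

end Pool.Agent.H14SR
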